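import Pool.Agent.P.MP_b2082d_co.L.LDefs

/-! The pair cover lemma. -/

namespace Pool.Agent.P.MP_b2082d_co.Lin
open Finset

namespace Coverx

theorem sum_off {ι A : Type} [Fintype ι] [DecidableEq ι] [AddCommMonoid A] (f : ι → A) (i : ι) :
    ∑ j, f j = f i + ∑ j, if i = j then 0 else f j := by
  have e : ∀ j, f j = (if i = j then f j else 0) + if i = j then 0 else f j := fun j => by
    split_ifs <;> simp
  rw [sum_congr rfl fun j _ => e j, sum_add_distrib, sum_ite_eq, if_pos (mem_univ i)]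

theorem two_sum {ι : Type} [Fintype ι] [DecidableEq ι] (Q : ι → ι → ℕ) (S : Finset ι) :
    2 * ∑ i, ∑ j, (if i ∈ S ∨ j ∈ S then Q i j else 0) =
      F2 (fun i j => if i = j then 0 else Q i j + Q j i) (fun i => Q i i) S := by
  have e1 : 2 * ∑ i, ∑ j, (if i ∈ S ∨ j ∈ S then Q i j else 0) =
      ∑ i, ∑ j, (if i ∈ S ∨ j ∈ S then Q i j + Q j i else 0) := by
    have e0 : ∑ i, ∑ j, (if i ∈ S ∨ j ∈ S then Q i j else 0) =
        ∑ i, ∑ j, (if j ∈ S ∨ i ∈ S then Q j i else 0) := sum_comm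
    rw [two_mul]
    nth_rewrite 2 [e0]
    rw [← sum_add_distrib]
    refine sum_congr rfl fun i _ => ?_
    rw [← sum_add_distrib]
    refine sum_congr rfl fun j _ => ?_
    by_cases h : i ∈ S ∨ j ∈ S
    · rw [if_pos h, if_pos h.symm, if_pos h]
    · rw [if_neg h, if_neg (fun h' => h h'.symm), if_neg h]
  rw [e1, ← sum_add_sum_compl S, F2]
  congr 1
  · rw [mul_sum, ← sum_add_distrib]
    refine sum_congr rfl fun i hi => ?_
    simp only [hi, true_or, if_true]
    rw [sum_off _ i, two_mul]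
  · rw [sum_comm]
    rw [← sum_add_sum_compl S]
    have e2 : ∑ j ∈ Sᶜ, ∑ i ∈ Sᶜ, (if i ∈ S ∨ j ∈ S then Q i j + Q j i else 0) = 0 :=
      sum_eq_zero fun j hj => sum_eq_zero fun i hi =>
        if_neg fun h => h.elim (mem_compl.1 hi) (mem_compl.1 hj)
    rw [e2, add_zero]
    refine sum_congr rfl fun j hj => sum_congr rfl fun i hi => ?_
    rw [if_pos (Or.inr hj), if_neg (fun h : j = i => mem_compl.1 hi (h ▸ hj)), add_comm]

theorem fiber {V ι : Type} [DecidableEq V] [Fintype ι] [DecidableEq ι] (τ : ι → ι) (t : ι → V)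
    (ht : ∀ i, t (τ i) = t i) (hτ : ∀ i, τ (τ i) = i) (w : V → ℝ) (hw : ∀ v, 0 ≤ w v) :
    2 * ∑ v ∈ univ.image t, w v ≤ ∑ i, if τ i = i then 2 * w (t i) else w (t i) := by
  rw [← sum_fiberwise_of_maps_to (t := univ.image t) (g := t)
    (fun i _ => mem_image_of_mem t (mem_univ i)), mul_sum]
  refine sum_le_sum fun v hv => ?_
  obtain ⟨i, -, rfl⟩ := mem_image.1 hv
  have h0 : ∀ k, 0 ≤ (if τ k = k then 2 * w (t k) else w (t k)) := fun k => by
    have := hw (t k)
    split_ifs <;> positivity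
  by_cases h : τ i = i
  · refine le_trans ?_ (single_le_sum (fun k _ => h0 k) (a := i) (by simp))
    rw [if_pos h]
  · refine le_trans ?_ (sum_le_sum_of_subset_of_nonneg (s := {i, τ i}) ?_ fun k _ _ => h0 k)
    · rw [sum_pair (Ne.symm h), if_neg h, hτ, if_neg (Ne.symm h), ht, two_mul]
    · intro k hk
      rcases mem_insert.1 hk with rfl | hk
      · simp
      · rw [mem_singleton.1 hk]
        simp [ht]

theorem cover_univ (h1 : S_G1) (h2 : S_G2) (V ι : Type) [Fintype V] [DecidableEq V] [Nonempty V]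
    [Fintype ι] [DecidableEq ι] (E : ι → Finset V) (D : ℕ) (q : V → ι → ι → ℕ) (hD : 0 < D)
    (hq : ∀ v i j, q v i j ≠ 0 → v ∈ E i ∧ v ∈ E j)
    (hodd : ∀ S : Finset ι, Odd S.card → D * (S.card + 1) ≤
      2 * ∑ v, ∑ i, ∑ j, if i ∈ S ∨ j ∈ S then q v i j else 0)
    (w : V → ℝ) (hw : ∀ v, 0 ≤ w v) :
    ∃ T : Finset V, (∀ i, (T ∩ E i).Nonempty) ∧
      (D : ℝ) * ∑ v ∈ T, w v ≤ ∑ v, w v * ((∑ i, ∑ j, q v i j : ℕ) : ℝ) := by
  choose! am ham1 ham2 using fun (A : Finset V) (hA : A.Nonempty) => exists_min_image A w hA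
  let Q : ι → ι → ℕ := fun i j => ∑ v, q v i j
  let M : ι → ι → ℕ := fun i j => if i = j then 0 else Q i j + Q j i
  let A : ι → Finset V := fun i => univ.filter fun v => ∃ j, q v i j + q v j i ≠ 0
  let B : ι → ι → Finset V := fun i j => univ.filter fun v => q v i j + q v j i ≠ 0
  have hBs : ∀ i j, B i j = B j i := fun i j => filter_congr fun v _ => by rw [add_comm]
  have hBA : ∀ i j, B i j ⊆ A i := fun i j v hv =>
    mem_filter.2 ⟨mem_univ _, j, (mem_filter.1 hv).2⟩
  have hAE : ∀ i, A i ⊆ E i := fun i v hv => by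
    obtain ⟨j, hj⟩ := (mem_filter.1 hv).2
    by_cases h : q v i j = 0
    · exact (hq v j i fun h' => hj (by rw [h, h'])).2
    · exact (hq v i j h).1
  have hA : ∀ i, (A i).Nonempty := fun i => by
    by_contra hne
    have h3 := hodd {i} (by simp)
    have h4 : ∑ v, ∑ k, ∑ j, (if k ∈ ({i} : Finset ι) ∨ j ∈ ({i} : Finset ι) then q v k j else 0)
        = 0 := by
      refine sum_eq_zero fun v _ => sum_eq_zero fun k _ => sum_eq_zero fun j _ => ?_
      split_ifs with h
      · by_contra h5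
        refine hne ⟨v, mem_filter.2 ⟨mem_univ _, ?_⟩⟩
        rcases h with h | h <;> rw [mem_singleton] at h <;> subst h
        · exact ⟨j, by omega⟩
        · exact ⟨k, by omega⟩
      · rfl
    rw [h4, card_singleton] at h3
    omega
  have hB : ∀ i j, 0 < M i j → (B i j).Nonempty := fun i j h => by
    by_contra hne
    have h3 : Q i j + Q j i = 0 := by
      rw [← sum_add_distrib]
      refine sum_eq_zero fun v _ => ?_
      by_contra h4
      exact hne ⟨v, mem_filter.2 ⟨mem_univ _, h4⟩⟩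
    simp only [M, h3, ite_self] at h
    exact lt_irrefl _ h
  have hG : Good D M fun i => Q i i := by
    refine ⟨fun i j => ?_, fun i => if_pos rfl, fun S hS => ?_⟩
    · by_cases h : i = j
      · rw [h]
      · simp only [M, if_neg h, if_neg (Ne.symm h), add_comm]
    · rw [← two_sum Q S]
      refine (hodd S hS).trans_eq ?_
      congr 1
      rw [sum_comm]
      refine sum_congr rfl fun i _ => ?_
      rw [sum_comm]
      refine sum_congr rfl fun j _ => ?_
      split_ifs
      · rfl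
      · exact sum_const_zero
  obtain ⟨M', l', N, hG', hdeg, hM, hl⟩ := h1 ι D M _ hG
  obtain ⟨τ, hτ, hτM, hsum⟩ := h2 ι D M' l' hG' hD hdeg (fun i => 2 * w (am (A i)))
    fun i j => w (am (B i j))
  let t : ι → V := fun i => if τ i = i then am (A i) else am (B i (τ i))
  have ht : ∀ i, t (τ i) = t i := fun i => by
    by_cases h : τ i = i
    · rw [h]
    · simp only [t, hτ, if_neg h, if_neg (Ne.symm h), hBs i]
  have htA : ∀ i, t i ∈ A i := fun i => by
    by_cases h : τ i = i
    · simp only [t, if_pos h]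
      exact ham1 _ (hA i)
    · simp only [t, if_neg h]
      refine hBA i _ (ham1 _ (hB _ _ ?_))
      have := hτM i h
      rw [hM]
      omega
  refine ⟨univ.image t, fun i => ⟨t i, mem_inter.2 ⟨mem_image_of_mem t (mem_univ i),
    hAE i (htA i)⟩⟩, ?_⟩
  have e1 := fiber τ t ht hτ w hw
  have e2 : ∑ i, (if τ i = i then 2 * w (t i) else w (t i)) =
      ∑ i, (if τ i = i then 2 * w (am (A i)) else w (am (B i (τ i)))) :=
    sum_congr rfl fun i _ => by
      by_cases h : τ i = i
      · simp only [t, if_pos h]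
      · simp only [t, if_neg h]
  have e3 : ∑ i, (l' i : ℝ) * (2 * w (am (A i))) ≤ ∑ i, (Q i i : ℝ) * (2 * w (am (A i))) +
      2 * ∑ i, ∑ j, (N i j : ℝ) * w (am (B i j)) := by
    rw [mul_sum, ← sum_add_distrib]
    refine sum_le_sum fun i _ => ?_
    have h3 : (l' i : ℝ) ≤ Q i i + ∑ j, (N i j : ℝ) := by exact_mod_cast hl i
    have h4 : ∑ j, (N i j : ℝ) * w (am (A i)) ≤ ∑ j, (N i j : ℝ) * w (am (B i j)) := by
      refine sum_le_sum fun j _ => ?_
      rcases Nat.eq_zero_or_pos (N i j) with h | h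
      · simp [h]
      · refine mul_le_mul_of_nonneg_left (ham2 _ (hA i) _ (hBA i j (ham1 _ (hB i j ?_))))
          (Nat.cast_nonneg _)
        rw [hM]
        omega
    rw [← sum_mul] at h4
    nlinarith [mul_le_mul_of_nonneg_right h3 (hw (am (A i)))]
  have e4 : ∑ i, ∑ j, (M i j : ℝ) * w (am (B i j)) = ∑ i, ∑ j, (M' i j : ℝ) * w (am (B i j)) +
      2 * ∑ i, ∑ j, (N i j : ℝ) * w (am (B i j)) := by
    have h3 : ∑ i, ∑ j, (N i j : ℝ) * w (am (B i j)) = ∑ i, ∑ j, (N j i : ℝ) * w (am (B i j)) := by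
      rw [sum_comm]
      exact sum_congr rfl fun i _ => sum_congr rfl fun j _ => by rw [hBs]
    rw [two_mul]
    nth_rewrite 2 [h3]
    simp only [← sum_add_distrib]
    refine sum_congr rfl fun i _ => sum_congr rfl fun j _ => ?_
    rw [hM]
    push_cast
    ring
  have e5 : ∀ i j, ((Q i j : ℝ) + Q j i) * w (am (B i j)) ≤
      ∑ v, ((q v i j : ℝ) + q v j i) * w v := fun i j => by
    simp only [Q]
    push_cast
    rw [← sum_add_distrib, sum_mul]
    refine sum_le_sum fun v _ => ?_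
    by_cases h : q v i j + q v j i = 0
    · have h' : (q v i j : ℝ) + q v j i = 0 := by exact_mod_cast h
      rw [h', zero_mul, zero_mul]
    · have hv : v ∈ B i j := mem_filter.2 ⟨mem_univ _, h⟩
      exact mul_le_mul_of_nonneg_left (ham2 _ ⟨v, hv⟩ v hv) (by positivity)
  have e6 : ∀ i, (Q i i : ℝ) * (2 * w (am (A i))) ≤ ∑ v, ((q v i i : ℝ) + q v i i) * w v :=
    fun i => by
    simp only [Q]
    push_cast
    rw [sum_mul]
    refine sum_le_sum fun v _ => ?_
    by_cases h : q v i i = 0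
    · simp [h]
    · have hv : v ∈ A i := mem_filter.2 ⟨mem_univ _, i, by omega⟩
      nlinarith [mul_le_mul_of_nonneg_left (ham2 _ (hA i) v hv) (Nat.cast_nonneg (q v i i))]
  have e7 : ∑ i, (Q i i : ℝ) * (2 * w (am (A i))) + ∑ i, ∑ j, (M i j : ℝ) * w (am (B i j)) ≤
      ∑ i, ∑ j, ∑ v, ((q v i j : ℝ) + q v j i) * w v := by
    rw [← sum_add_distrib]
    refine sum_le_sum fun i _ => ?_
    rw [sum_off (fun j => ∑ v, ((q v i j : ℝ) + q v j i) * w v) i]
    refine add_le_add (e6 i) (sum_le_sum fun j _ => ?_)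
    by_cases h : i = j
    · simp [M, h]
    · simp only [M, if_neg h]
      push_cast
      exact e5 i j
  have e8 : ∑ i, ∑ j, ∑ v, ((q v i j : ℝ) + q v j i) * w v =
      2 * ∑ v, w v * ((∑ i, ∑ j, q v i j : ℕ) : ℝ) := by
    have h3 : ∑ i, ∑ j, ∑ v, (q v i j : ℝ) * w v = ∑ v, w v * ((∑ i, ∑ j, q v i j : ℕ) : ℝ) := by
      push_cast
      simp only [mul_sum]
      rw [sum_comm (s := (univ : Finset V))]
      refine sum_congr rfl fun i _ => ?_
      rw [sum_comm (s := (univ : Finset V))]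
      exact sum_congr rfl fun j _ => sum_congr rfl fun v _ => mul_comm _ _
    have h4 : ∑ i, ∑ j, ∑ v, (q v j i : ℝ) * w v = ∑ i, ∑ j, ∑ v, (q v i j : ℝ) * w v := sum_comm
    simp only [add_mul, sum_add_distrib]
    rw [h4, h3, two_mul]
  have e9 := mul_le_mul_of_nonneg_left e1 (Nat.cast_nonneg (α := ℝ) D)
  rw [e2] at e9
  linarith

theorem sum_sub {ι : Type} [Fintype ι] [DecidableEq ι] (R : Finset ι) (f : ι → ι → ℕ)
    (h : ∀ i j, f i j ≠ 0 → i ∈ R ∧ j ∈ R) :
    ∑ i : R, ∑ j : R, f i j = ∑ i, ∑ j, f i j := by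
  have e : ∀ i, ∑ j : R, f i j = ∑ j, f i j := fun i => by
    rw [sum_coe_sort R (f i)]
    exact sum_subset (subset_univ _) fun j _ hj => by
      by_contra h'
      exact hj (h i j h').2
  simp only [e]
  rw [sum_coe_sort R fun i => ∑ j, f i j]
  exact sum_subset (subset_univ _) fun i _ hi => sum_eq_zero fun j _ => by
    by_contra h'
    exact hi (h i j h').1

end Coverx

theorem p_Cover (h1 : S_G1) (h2 : S_G2) : S_Cover := by
  intro V ι _ _ _ _ E R D q hD hq0 hq hodd w hw
  rcases isEmpty_or_nonempty V with hV | hV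
  · refine ⟨∅, fun i hi => ?_, by simp⟩
    have h3 := hodd {i} (singleton_subset_iff.2 hi) (by simp)
    simp only [card_singleton, univ_eq_empty, sum_empty] at h3
    omega
  obtain ⟨q, rfl⟩ : ∃ q' : V → ι → ι → ℕ, q = fun v i j => (q' v i j : ℤ) :=
    ⟨fun v i j => (q v i j).toNat, by
      funext v i j
      exact (Int.toNat_of_nonneg (hq0 v i j)).symm⟩
  beta_reduce at hq hodd ⊢
  have hq' : ∀ v i j, q v i j ≠ 0 → i ∈ R ∧ j ∈ R ∧ v ∈ E i ∧ v ∈ E j := fun v i j h =>
    hq v i j (by exact_mod_cast h)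
  obtain ⟨T, hT, hle⟩ := Coverx.cover_univ h1 h2 V R (fun i => E i) D (fun v i j => q v i j) hD
    (fun v i j h => (hq' v i j h).2.2) (fun S hS => by
      have h3 := hodd (S.map (Function.Embedding.subtype _))
        (fun i hi => by
          obtain ⟨k, -, rfl⟩ := mem_map.1 hi
          exact k.2) (by rwa [card_map])
      rw [card_map] at h3
      have h4 : ∀ v, ∑ i : R, ∑ j : R, (if i ∈ S ∨ j ∈ S then q v i j else 0) =
          ∑ i, ∑ j, (if i ∈ S.map (Function.Embedding.subtype _) ∨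
            j ∈ S.map (Function.Embedding.subtype _) then q v i j else 0) := fun v => by
        rw [← Coverx.sum_sub R]
        · refine sum_congr rfl fun i _ => sum_congr rfl fun j _ => ?_
          have e : ∀ k : R, (k : ι) ∈ S.map (Function.Embedding.subtype _) ↔ k ∈ S := fun k =>
            mem_map' (Function.Embedding.subtype _)
          simp only [e]
        · intro i j h
          have h5 := hq' v i j fun h6 => h (by rw [h6, ite_self])
          exact ⟨h5.1, h5.2.1⟩
      simp only [h4]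
      exact_mod_cast h3) w hw
  refine ⟨T, fun i hi => hT ⟨i, hi⟩, hle.trans_eq (sum_congr rfl fun v _ => ?_)⟩
  rw [Coverx.sum_sub R (q v) fun i j h => ⟨(hq' v i j h).1, (hq' v i j h).2.1⟩]
  push_cast
  rfl

end Pool.Agent.P.MP_b2082d_co.Lin
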