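import Pool.Agent.P.MP_b2082d_co.L.LDefs

/-! Reduction of all loads to the value `D`. -/

namespace Pool.Agent.P.MP_b2082d_co.Lin
open Finset

namespace G1x

variable {ι : Type} [Fintype ι] [DecidableEq ι] {D : ℕ} {M : ι → ι → ℕ} {l : ι → ℕ}

/-- the weight of the pairs leaving `S`. -/
def cut (M : ι → ι → ℕ) (S : Finset ι) : ℕ := ∑ i ∈ S, ∑ j ∈ Sᶜ, M i j

/-- the modular part of `F2`. -/
def md (M : ι → ι → ℕ) (l : ι → ℕ) (S : Finset ι) : ℕ := ∑ i ∈ S, (2 * l i + ∑ j, M i j)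

theorem F2_eq (S : Finset ι) : F2 M l S = md M l S + cut M S := by
  simp only [F2, md, cut, sum_add_distrib, mul_sum]

theorem cut_eq (S : Finset ι) : cut M S = ∑ i, ∑ j, if i ∈ S ∧ j ∉ S then M i j else 0 := by
  simp only [cut, ite_and, sum_ite_irrel, sum_const_zero, sum_ite_mem, univ_inter, ← mem_compl]

theorem cut_sub (S T : Finset ι) : cut M (S ∪ T) + cut M (S ∩ T) ≤ cut M S + cut M T := by
  simp only [cut_eq, ← sum_add_distrib]
  refine sum_le_sum fun i _ => sum_le_sum fun j _ => ?_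
  by_cases h1 : i ∈ S <;> by_cases h2 : i ∈ T <;> by_cases h3 : j ∈ S <;> by_cases h4 : j ∈ T <;>
    simp [h1, h2, h3, h4]

theorem cut_compl (h : Good D M l) (S : Finset ι) : cut M Sᶜ = cut M S := by
  rw [cut, cut, compl_compl, sum_comm]
  simp only [h.symm]

theorem cut_pos (h : Good D M l) (S T : Finset ι) :
    cut M (S \ T) + cut M (T \ S) ≤ cut M S + cut M T := by
  have h1 := cut_sub (M := M) S Tᶜ
  rw [cut_compl h, ← cut_compl h (S ∪ Tᶜ), show (S ∪ Tᶜ)ᶜ = T \ S by ext; simp [and_comm],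
    show S ∩ Tᶜ = S \ T by ext; simp] at h1
  omega

theorem even_F2 (h : Good D M l) (S : Finset ι) : Even (F2 M l S) := by
  have h1 : Even (∑ i ∈ S, ∑ j ∈ S, M i j) := by
    induction S using Finset.induction_on with
    | empty => simp
    | insert a S ha ih =>
      simp only [sum_insert ha, sum_add_distrib, h.diag, h.symm _ a]
      obtain ⟨k, hk⟩ := ih
      exact ⟨k + ∑ j ∈ S, M a j, by omega⟩
  obtain ⟨k, hk⟩ := h1
  have h2 : ∑ i ∈ S, ∑ j, M i j = ∑ i ∈ S, ∑ j ∈ S, M i j + ∑ i ∈ S, ∑ j ∈ Sᶜ, M i j := by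
    simp only [← sum_add_distrib, sum_add_sum_compl]
  exact ⟨∑ i ∈ S, l i + k + ∑ i ∈ S, ∑ j ∈ Sᶜ, M i j, by rw [F2]; omega⟩

theorem load_ge (h : Good D M l) (v : ι) : D ≤ l v + ∑ j, M v j := by
  have h1 := h.odd {v} (by simp)
  have h2 := sum_add_sum_compl {v} (M v)
  simp only [F2, sum_singleton, card_singleton, h.diag] at h1 h2
  omega

theorem sum_load (h : Good D M l) {v : ι} (hv : D < l v + ∑ j, M v j) {S : Finset ι}
    (hS : v ∈ S) : D * S.card + l v < md M l S := by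
  have h1 : ∑ _i ∈ S, D < ∑ i ∈ S, (l i + ∑ j, M i j) :=
    sum_lt_sum (fun i _ => load_ge h i) ⟨v, hS, hv⟩
  have h2 := single_le_sum (f := l) (fun i _ => Nat.zero_le _) hS
  rw [sum_const, smul_eq_mul, mul_comm, sum_add_distrib] at h1
  rw [md, sum_add_distrib, ← mul_sum]
  omega

/-- tight sets. -/
def Tight (D : ℕ) (M : ι → ι → ℕ) (l : ι → ℕ) (S : Finset ι) : Prop :=
  Odd S.card ∧ D * (S.card + 1) = F2 M l S

theorem slack (h : Good D M l) {S : Finset ι} (h1 : Odd S.card) (h2 : ¬ Tight D M l S) :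
    D * (S.card + 1) + 2 ≤ F2 M l S := by
  have h3 := h.odd S h1
  have h4 : D * (S.card + 1) ≠ F2 M l S := fun h => h2 ⟨h1, h⟩
  obtain ⟨a, ha⟩ := even_F2 h S
  obtain ⟨b, hb⟩ : Even (D * (S.card + 1)) := h1.add_one.mul_left D
  omega

theorem Tight.inter (h : Good D M l) {v : ι} (hv : D < l v + ∑ j, M v j) {S T : Finset ι}
    (hS : Tight D M l S) (hT : Tight D M l T) (h1 : v ∈ S) (h2 : v ∈ T) :
    Tight D M l (S ∩ T) := by
  obtain ⟨o1, t1⟩ := hS
  obtain ⟨o2, t2⟩ := hT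
  rw [F2_eq] at t1 t2
  have o3 : Odd (S ∩ T).card := by
    by_contra h3
    have c1 := card_sdiff_add_card_inter S T
    have c2 := card_sdiff_add_card_inter T S
    have m1 : md M l (S ∩ T) + md M l (S \ T) = md M l S := sum_inter_add_sum_sdiff S T _
    have m2 : md M l (T ∩ S) + md M l (T \ S) = md M l T := sum_inter_add_sum_sdiff T S _
    rw [inter_comm T S] at c2 m2
    rw [Nat.odd_iff] at o1 o2 h3
    have h4 := h.odd (S \ T) (by rw [Nat.odd_iff]; omega)
    have h5 := h.odd (T \ S) (by rw [Nat.odd_iff]; omega)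
    have h6 := sum_load h hv (mem_inter.2 ⟨h1, h2⟩)
    have h7 := cut_pos h S T
    rw [F2_eq] at h4 h5
    rw [← c1] at t1
    rw [← c2] at t2
    simp only [mul_add] at t1 t2 h4 h5
    omega
  have c1 := card_union_add_card_inter S T
  have m1 : md M l (S ∪ T) + md M l (S ∩ T) = md M l S + md M l T := sum_union_inter
  have h4 := h.odd (S ∪ T) (by rw [Nat.odd_iff] at o1 o2 o3 ⊢; omega)
  have h5 := h.odd _ o3
  have h6 := cut_sub (M := M) S T
  have h7 := congrArg (D * ·) c1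
  refine ⟨o3, ?_⟩
  rw [F2_eq] at h4 h5 ⊢
  simp only [mul_add] at t1 t2 h4 h5 h7 ⊢
  omega

theorem move (h : Good D M l) {v : ι} (hv : D < l v + ∑ j, M v j) :
    (0 < l v ∧ ∀ S, Tight D M l S → v ∉ S) ∨
      ∃ u, 0 < M v u ∧ ∀ S, Tight D M l S → v ∈ S → u ∈ S := by
  classical
  by_contra h1
  push Not at h1
  obtain ⟨h1, h2⟩ := h1
  have h3 : (univ.filter fun S => Tight D M l S ∧ v ∈ S).Nonempty := by
    by_cases h4 : 0 < l v
    · obtain ⟨S, h5⟩ := h1 h4
      exact ⟨S, by simpa using h5⟩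
    · obtain ⟨u, -, hu⟩ := exists_ne_zero_of_sum_ne_zero (s := univ) (f := M v) (by omega)
      obtain ⟨S, h5, h6, -⟩ := h2 u (by omega)
      exact ⟨S, by simpa using ⟨h5, h6⟩⟩
  obtain ⟨S, h4, h5⟩ := exists_min_image _ card h3
  simp only [mem_filter, mem_univ, true_and] at h4 h5
  have h6 : ∑ u ∈ S, M v u = 0 := sum_eq_zero fun u hu => by
    by_contra h7
    obtain ⟨T, h8, h9, h10⟩ := h2 u (by omega)
    have h11 := eq_of_subset_of_card_le inter_subset_left
      (h5 _ ⟨h4.1.inter h hv h8 h4.2 h9, mem_inter.2 ⟨h4.2, h9⟩⟩)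
    exact h10 (mem_inter.1 (h11.symm ▸ hu)).2
  have h7 := sum_add_sum_compl S (M v)
  have h8 : ∑ j ∈ Sᶜ, M v j ≤ cut M S :=
    single_le_sum (f := fun i => ∑ j ∈ Sᶜ, M i j) (fun i _ => Nat.zero_le _) h4.2
  have h9 := sum_load h hv h4.2
  have h10 := h4.1.2
  rw [F2_eq, mul_add] at h10
  omega

theorem step (h : Good D M l) {v : ι} (hv : D < l v + ∑ j, M v j) :
    ∃ (M' : ι → ι → ℕ) (l' : ι → ℕ) (N : ι → ι → ℕ), Good D M' l' ∧
      ∑ i, l' i + ∑ i, ∑ j, M' i j < ∑ i, l i + ∑ i, ∑ j, M i j ∧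
      (∀ i j, M i j = M' i j + N i j + N j i) ∧ ∀ i, l' i ≤ l i + ∑ j, N i j := by
  rcases move h hv with ⟨h1, h2⟩ | ⟨u, h1, h2⟩
  · obtain ⟨l', rfl⟩ : ∃ l' : ι → ℕ, l = fun i => l' i + if i = v then 1 else 0 :=
      ⟨fun i => l i - if i = v then 1 else 0, funext fun i => by
        beta_reduce
        split_ifs with h3
        · subst h3
          omega
        · rfl⟩
    refine ⟨M, l', 0, ⟨h.symm, h.diag, fun S hS => ?_⟩, by simp [sum_add_distrib], by simp,
      by simp⟩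
    by_cases h3 : v ∈ S
    · have h4 := slack h hS fun h5 => h2 S h5 h3
      simp only [F2, sum_add_distrib, sum_ite_eq', h3, if_true] at h4 ⊢
      omega
    · have h4 := h.odd S hS
      simpa only [F2, sum_add_distrib, sum_ite_eq', h3, if_false, add_zero] using h4
  · have huv : u ≠ v := by
      rintro rfl
      simp [h.diag] at h1
    obtain ⟨M', rfl⟩ : ∃ M' : ι → ι → ℕ, M = fun i j => M' i j + (if i = u ∧ j = v then 1 else 0) +
        if j = u ∧ i = v then 1 else 0 :=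
      ⟨fun i j => M i j - (if i = u ∧ j = v then 1 else 0) - if j = u ∧ i = v then 1 else 0,
        funext₂ fun i j => by
          have h3 := h.symm u v
          beta_reduce
          split_ifs with h4 h5 h5
          · exact absurd (h4.1.symm.trans h5.2) huv
          · rw [h4.1, h4.2]
            omega
          · rw [h5.1, h5.2]
            omega
          · rfl⟩
    refine ⟨M', fun i => l i + if i = u then 1 else 0, fun i j => if i = u ∧ j = v then 1 else 0,
      ⟨fun i j => ?_, fun i => ?_, fun S hS => ?_⟩, ?_, fun _ _ => rfl, fun i => ?_⟩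
    · have h3 := h.symm i j
      omega
    · have h3 := h.diag i
      omega
    · have h3 := h.odd S hS
      have h4 := fun (h6 : v ∈ S) (h7 : u ∉ S) => slack h hS fun h5 => h7 (h2 S h5 h6)
      by_cases h6 : v ∈ S <;> by_cases h7 : u ∈ S <;>
        simp [F2, sum_add_distrib, ite_and, h6, h7] at h3 h4 ⊢ <;> omega
    · simp [sum_add_distrib, ite_and]
      omega
    · simp [ite_and]

end G1x

open G1x in
theorem p_G1 : S_G1 := by
  intro ι _ _ D M l h
  induction hn : ∑ i, l i + ∑ i, ∑ j, M i j using Nat.strong_induction_on generalizing M l with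
  | _ n ih =>
    by_cases h1 : ∀ i, l i + ∑ j, M i j = D
    · exact ⟨M, l, 0, h, h1, by simp, by simp⟩
    obtain ⟨v, hv⟩ := not_forall.1 h1
    obtain ⟨M1, l1, N1, g1, t1, a1, b1⟩ := step h (v := v) (by have := load_ge h v; omega)
    obtain ⟨M2, l2, N2, g2, t2, a2, b2⟩ := ih _ (hn ▸ t1) M1 l1 g1 rfl
    refine ⟨M2, l2, fun i j => N1 i j + N2 i j, g2, t2, fun i j => ?_, fun i => ?_⟩
    · have := a1 i j
      have := a2 i j
      beta_reduce
      omega
    · have := b1 i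
      have := b2 i
      rw [sum_add_distrib]
      omega

end Pool.Agent.P.MP_b2082d_co.Lin
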