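import Pool.Agent.P.MP_b2082d_co.L.LDefs
import Pool.Agent.P.MP_303500_co.Edmonds

/-! Rounding a fractional cover by pairs and loops with the perfect matching polytope. -/

namespace Pool.Agent.P.MP_b2082d_co.Lin
open Finset Pool.Agent.P.MP_303500_co

namespace G2x

variable {ι : Type} [Fintype ι] [DecidableEq ι]

/-- The doubled graph. -/
def dbl (M : ι → ι → ℕ) (l : ι → ℕ) (p q : ι × Bool) : ℕ :=
  if p.2 = q.2 then M p.1 q.1 else if p.1 = q.1 then l p.1 else 0

theorem cut_ite (m : ι → ι → ℕ) (S : Finset ι) :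
    cut m S = ∑ i, ∑ j, if i ∈ S ∧ j ∉ S then m i j else 0 := by
  simp only [cut, ite_and, sum_ite_irrel, sum_const_zero, ← mem_compl, sum_ite_mem, univ_inter]

theorem cut_sdiff {M : ι → ι → ℕ} (h : ∀ i j, M i j = M j i) (A B : Finset ι) :
    cut M (A \ B) ≤ cut M A + cut M B := by
  rw [cut_ite, cut_ite, cut_ite M B, sum_comm (f := fun i j => if i ∈ B ∧ j ∉ B then M i j else 0),
    ← sum_add_distrib]
  refine sum_le_sum fun i _ => ?_
  rw [← sum_add_distrib]
  refine sum_le_sum fun j _ => ?_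
  rw [h j i]
  by_cases a : i ∈ A <;> by_cases b : i ∈ B <;> by_cases c : j ∈ A <;> by_cases d : j ∈ B <;>
    simp [a, b, c, d]

theorem cut_dbl (M : ι → ι → ℕ) (l : ι → ℕ) (T : Finset (ι × Bool)) (A B : Finset ι)
    (hA : ∀ i, i ∈ A ↔ (i, false) ∈ T) (hB : ∀ i, i ∈ B ↔ (i, true) ∈ T) :
    cut (dbl M l) T = cut M A + cut M B + ∑ i ∈ A \ B, l i + ∑ i ∈ B \ A, l i := by
  have e : ∀ (X Y : Finset ι) (i : ι), (∑ j, if i ∈ X ∧ j ∉ Y then if i = j then l i else 0 else 0)
      = if i ∈ X \ Y then l i else 0 := fun X Y i => by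
    rw [sum_eq_single i (fun j _ hj => by simp [hj.symm]) (by simp)]
    simp
  simp only [cut_ite, Fintype.sum_prod_type, Fintype.sum_bool, dbl, ← hA, ← hB, sum_add_distrib,
    if_true, Bool.true_eq_false, Bool.false_eq_true, if_false, e, sum_ite_mem, univ_inter]
  omega

theorem card_dbl (T : Finset (ι × Bool)) (A B : Finset ι)
    (hA : ∀ i, i ∈ A ↔ (i, false) ∈ T) (hB : ∀ i, i ∈ B ↔ (i, true) ∈ T) :
    T.card = A.card + B.card := by
  have e : ∀ {α : Type} [Fintype α] [DecidableEq α] (X : Finset α),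
      X.card = ∑ i, if i ∈ X then 1 else 0 := fun X => by simp
  rw [e T, e A, e B]
  simp only [Fintype.sum_prod_type, Fintype.sum_bool, ← hA, ← hB, sum_add_distrib, add_comm]

theorem odd_cut {D : ℕ} {M : ι → ι → ℕ} {l : ι → ℕ} (h : Good D M l)
    (hl : ∀ i, l i + ∑ j, M i j = D) (T : Finset (ι × Bool)) (hT : Odd T.card) :
    D ≤ cut (dbl M l) T := by
  have key : ∀ X : Finset ι, Odd X.card → D ≤ cut M X + ∑ i ∈ X, l i := fun X hX => by
    have h1 := h.odd X hX
    have h2 : ∑ i ∈ X, l i + ∑ i ∈ X, ∑ j, M i j = D * X.card := by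
      rw [← sum_add_distrib, sum_congr rfl fun i _ => hl i, sum_const, smul_eq_mul, mul_comm]
    rw [F2, mul_add] at h1
    unfold cut
    omega
  obtain ⟨A, hA⟩ : ∃ A : Finset ι, ∀ i, i ∈ A ↔ (i, false) ∈ T :=
    ⟨univ.filter fun i => (i, false) ∈ T, by simp⟩
  obtain ⟨B, hB⟩ : ∃ B : Finset ι, ∀ i, i ∈ B ↔ (i, true) ∈ T :=
    ⟨univ.filter fun i => (i, true) ∈ T, by simp⟩
  rw [card_dbl T A B hA hB] at hT
  rw [cut_dbl M l T A B hA hB]
  have h1 := card_sdiff_add_card_inter A B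
  have h2 := card_sdiff_add_card_inter B A
  rw [inter_comm] at h2
  have h3 := cut_sdiff h.symm A B
  have h4 := cut_sdiff h.symm B A
  rcases Nat.even_or_odd (A \ B).card with h5 | h5
  · have := key (B \ A) (by rw [Nat.odd_iff] at hT ⊢; rw [Nat.even_iff] at h5; omega)
    omega
  · have := key _ h5
    omega

theorem reg_dbl {D : ℕ} {M : ι → ι → ℕ} {l : ι → ℕ} (h : Good D M l)
    (hl : ∀ i, l i + ∑ j, M i j = D) : Reg D (dbl M l) := by
  refine ⟨fun p q => ?_, fun p => by simp [dbl, h.diag], fun p => ?_⟩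
  · unfold dbl
    rw [h.symm q.1]
    by_cases a : p.1 = q.1 <;> simp [a, eq_comm]
  · obtain ⟨i, b⟩ := p
    rw [← hl i]
    cases b <;> simp [dbl, Fintype.sum_prod_type, sum_add_distrib, add_comm]

theorem sum_map (Ms : Multiset (ι → ι)) (u : ι) (G : ι → ℝ) :
    (Ms.map fun σ => G (σ u)).sum = ∑ q, (cnt Ms u q : ℝ) * G q := by
  induction Ms using Multiset.induction_on with
  | empty => simp
  | cons σ Ms ih => simp [cnt_cons, add_mul, sum_add_distrib, ih, add_comm]

end G2x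

open G2x in
theorem p_G2 : S_G2 := by
  intro ι _ _ D M l h hD hl s c
  rcases isEmpty_or_nonempty ι with h0 | ⟨⟨i₀⟩⟩
  · exact ⟨id, fun _ => rfl, fun i => isEmptyElim i, by simp⟩
  have hr := reg_dbl h hl
  obtain ⟨K, hK, Ms, h1, h2⟩ := edmonds _ (ι × Bool) rfl D _ hr (odd_cut h hl)
  have h3 : Ms.card = K * D := by
    rw [← sum_cnt Ms (i₀, false), ← (hr.mul K).deg (i₀, false)]
    exact sum_congr rfl fun q _ => (h2 _ q).symm
  let G : ι → ι × Bool → ℝ := fun i q => if q.1 = i then s i else c i q.1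
  let f : (ι × Bool → ι × Bool) → ℝ := fun σ => ∑ i, G i (σ (i, false))
  have h4 : (Ms.map f).sum = K * (∑ i, (l i : ℝ) * s i + ∑ i, ∑ j, (M i j : ℝ) * c i j) := by
    rw [Multiset.sum_map_sum, ← sum_add_distrib, mul_sum]
    refine sum_congr rfl fun i _ => ?_
    have e : ∀ j, (M i j : ℝ) * (if j = i then s i else c i j) = M i j * c i j := fun j => by
      split_ifs with a
      · simp [a, h.diag]
      · rfl
    rw [sum_map Ms (i, false) (G i)]
    simp only [← h2, Nat.cast_mul, mul_assoc, ← mul_sum, Fintype.sum_prod_type, Fintype.sum_bool,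
      dbl, G, if_true, e, sum_add_distrib]
    rw [sum_eq_single i (fun j _ hj => by simp [hj.symm]) (by simp)]
    simp
  obtain ⟨σ, hσ, h5⟩ := Multiset.exists_min_image f (s := Ms) (by
    rintro rfl
    exact (Nat.mul_pos hK hD).ne (by simpa using h3))
  have h6 := Multiset.card_nsmul_le_sum (s := Ms.map f) (a := f σ) (by
    simpa using h5)
  rw [h4, Multiset.card_map, h3, nsmul_eq_mul, Nat.cast_mul, mul_assoc] at h6
  have h7 : ∀ i, 0 < dbl M l (i, false) (σ (i, false)) := fun i =>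
    Nat.pos_of_mul_pos_left (a := K) (by
      have := cnt_pos.2 ⟨σ, hσ, (rfl : σ (i, false) = _)⟩
      rwa [← h2] at this)
  have h8 : ∀ i, (σ (i, false)).1 ≠ i →
      σ (i, false) = ((σ (i, false)).1, false) ∧ 0 < M i (σ (i, false)).1 := fun i hi => by
    have := h7 i
    generalize σ (i, false) = q at this hi
    obtain ⟨j, b⟩ := q
    cases b
    · exact ⟨rfl, by simpa [dbl] using this⟩
    · simp [dbl, Ne.symm hi] at this
  refine ⟨fun i => (σ (i, false)).1, fun i => ?_, fun i hi => (h8 i hi).2,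
    le_of_mul_le_mul_left h6 (by exact_mod_cast hK)⟩
  by_cases hi : (σ (i, false)).1 = i
  · simp only [hi]
  · simp only
    rw [← (h8 i hi).1, (h1 σ hσ _).1]

end Pool.Agent.P.MP_b2082d_co.Lin
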