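import Pool.Agent.P.MP_b2082d_co.L.LDefs

/-! The budget at a vertex of degree one. -/

namespace Pool.Agent.P.MP_b2082d_co.Lin
open Finset

namespace Bud1x

variable {V ι : Type} [DecidableEq V] [Fintype ι] [DecidableEq ι] {E : ι → Finset V}

omit [Fintype ι] [DecidableEq ι] in
theorem mh (R : Finset ι) (v : V) (i : ι) :
    mc E R v i + hc E R v i = (((E i).erase v).filter fun u => 2 ≤ dg E R u).card := by
  rw [mc, hc, ← card_union_of_disjoint (disjoint_filter.2 fun u _ h => by omega), ← filter_or]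
  exact congrArg _ (filter_congr fun u _ => by omega)

theorem dg_le (hE : LinH E) (R : Finset ι) {u x : V} (h : u ≠ x) :
    dg E R u ≤ dg E (del E R x) u + 1 ∧
      (dg E (del E R x) u < dg E R u → ∃ i ∈ st E R u, x ∈ E i) := by
  have e : dg E R u = dg E (del E R x) u + ((st E R u).filter fun i => x ∈ E i).card := by
    rw [dg, ← card_filter_add_card_filter_not (s := st E R u) fun i => x ∈ E i, add_comm, dg, st,
      st, del, filter_comm]
  have a : ((st E R u).filter fun i => x ∈ E i).card ≤ 1 := card_le_one.2 fun i hi j hj => by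
    by_contra hij
    have b1 := mem_filter.1 hi
    have b2 := mem_filter.1 hj
    exact h (card_le_one.1 (hE.lin i j hij) u
      (mem_inter.2 ⟨(mem_filter.1 b1.1).2, (mem_filter.1 b2.1).2⟩) x (mem_inter.2 ⟨b1.2, b2.2⟩))
  refine ⟨by omega, fun hl => ?_⟩
  obtain ⟨i, hi⟩ := card_pos.1 (show 0 < ((st E R u).filter fun i => x ∈ E i).card by omega)
  exact ⟨i, mem_filter.1 hi⟩

/-- the other vertices of the other edges through `u`. -/
def A (E : ι → Finset V) (R : Finset ι) (e : ι) (u : V) : Finset V :=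
  (((st E R u).erase e).biUnion E).erase u

theorem A_le (hE : LinH E) {R : Finset ι} {e : ι} {u : V} (he : e ∈ st E R u)
    (h : dg E R u = 2) : (A E R e u).card ≤ 3 := by
  obtain ⟨i, hi⟩ := card_eq_one.1 (show ((st E R u).erase e).card = 1 by
    rw [card_erase_of_mem he, ← dg, h])
  have : i ∈ st E R u := mem_of_mem_erase (hi ▸ mem_singleton_self i)
  rw [A, hi, singleton_biUnion, card_erase_of_mem (mem_filter.1 this).2, hE.unif]

theorem drop (hE : LinH E) (R : Finset ι) (v : V) {e : ι} {x : V} (hx : x ∉ E e) :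
    mc E R v e + hc E R v e ≤ mc E (del E R x) v e + hc E (del E R x) v e +
      ((((E e).erase v).filter fun u => dg E R u = 2).filter fun u => x ∈ A E R e u).card := by
  rw [mh, mh]
  refine (card_le_card fun u hu => ?_).trans (card_union_le _ _)
  obtain ⟨h1, h2⟩ := mem_filter.1 hu
  have h3 : u ≠ x := fun e0 => hx (e0 ▸ mem_of_mem_erase h1)
  obtain ⟨h4, h5⟩ := dg_le hE R h3
  by_cases h6 : 2 ≤ dg E (del E R x) u
  · exact mem_union_left _ (mem_filter.2 ⟨h1, h6⟩)
  · obtain ⟨i, i1, i2⟩ := h5 (by omega)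
    exact mem_union_right _ (mem_filter.2 ⟨mem_filter.2 ⟨h1, by omega⟩, mem_erase.2 ⟨h3.symm,
      mem_biUnion.2 ⟨i, mem_erase.2 ⟨fun e0 => hx (e0 ▸ i2), i1⟩, i2⟩⟩⟩)

end Bud1x

open Bud1x in
theorem p_Bud1 : S_Bud 1 := by
  intro V ι _ _ _ _ E hE R v hv
  obtain ⟨e, he⟩ := card_eq_one.1 hv
  have heR : e ∈ R := (mem_filter.1 (he ▸ mem_singleton_self e : e ∈ st E R v)).1
  have hpr : ∀ R', st E R' v = {e} →
      pr E R' v = (25000 - 902 * ((mc E R' v e : ℝ) + hc E R' v e)) / 100000 := fun R' h => by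
    rw [pr, dg, h, card_singleton, if_pos rfl, sum_singleton, phi]
    norm_num
  have hP := hpr R he
  have key : ∀ x ∈ univ.erase v,
      (if x ∈ ((E e).erase v).filter (fun u => 3 ≤ dg E R u) then 3 / 10 * pr E R v else 0) -
      2706 / 1000000 * ∑ u ∈ ((E e).erase v).filter (fun u => dg E R u = 2),
        (if x ∈ A E R e u then (1 : ℝ) else 0) ≤
      mu E R x * (pr E R v - pr E (del E R x) v) := fun x hx => by
    have hst : st E (del E R x) v = (st E R v).filter fun i => x ∉ E i := by
      rw [st, st, del, filter_comm]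
    rw [he, filter_singleton] at hst
    rw [sum_boole, mu]
    have c0 := Nat.cast_nonneg (α := ℝ)
      ((((E e).erase v).filter fun u => dg E R u = 2).filter fun u => x ∈ A E R e u).card
    by_cases h1 : 3 ≤ dg E R x
    · rw [if_pos h1]
      by_cases h2 : x ∈ E e
      · rw [if_neg (not_not.2 h2)] at hst
        have : pr E (del E R x) v = 0 := by
          rw [pr, dg, hst, card_empty, if_neg zero_ne_one, phi]
          norm_num
        rw [if_pos (mem_filter.2 ⟨mem_erase.2 ⟨ne_of_mem_erase hx, h2⟩, h1⟩), this]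
        linarith
      · rw [if_pos h2] at hst
        have d := (Nat.cast_le (α := ℝ)).2 (drop hE R v h2)
        push_cast at d
        rw [if_neg fun h => h2 (mem_of_mem_erase (mem_filter.1 h).1), hpr _ hst, hP]
        linarith
    · have h2 : x ∉ ((E e).erase v).filter fun u => 3 ≤ dg E R u := fun h => h1 (mem_filter.1 h).2
      rw [if_neg h1, if_neg h2]
      linarith
  have s1 := sum_le_sum key
  have s2 : univ.erase v ∩ ((E e).erase v).filter (fun u => 3 ≤ dg E R u) =
      ((E e).erase v).filter fun u => 3 ≤ dg E R u :=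
    inter_eq_right.2 fun u hu => mem_erase.2 ⟨ne_of_mem_erase (mem_filter.1 hu).1, mem_univ _⟩
  have s3 : ∑ u ∈ ((E e).erase v).filter (fun u => dg E R u = 2), ∑ x ∈ univ.erase v,
      (if x ∈ A E R e u then (1 : ℝ) else 0) ≤ mc E R v e * 3 := by
    rw [mc, ← nsmul_eq_mul]
    refine sum_le_card_nsmul _ _ _ fun u hu => ?_
    obtain ⟨u1, u2⟩ := mem_filter.1 hu
    rw [sum_boole]
    exact_mod_cast (card_le_card fun x hx => (mem_filter.1 hx).2).trans
      (A_le hE (mem_filter.2 ⟨heR, mem_of_mem_erase u1⟩) u2)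
  rw [sum_sub_distrib, sum_ite_mem, s2, sum_const, ← hc, nsmul_eq_mul, ← mul_sum, sum_comm] at s1
  have hm : mu E R v = 0 := by rw [mu, hv, if_neg (by norm_num)]
  rw [bud, hm, lbf, he, card_singleton, if_pos rfl, sum_singleton, b1]
  push_cast
  rw [hP] at s1 ⊢
  linarith

end Pool.Agent.P.MP_b2082d_co.Lin
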