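import Pool.Agent.P.MP_b2082d_co.L.LDefs

/-! The budget at a vertex of degree two. -/

namespace Pool.Agent.P.MP_b2082d_co.Lin
open Finset

namespace Bud2x

variable {V ι : Type} [DecidableEq V] [Fintype ι] [DecidableEq ι] {E : ι → Finset V}

omit [DecidableEq ι] in
theorem two (hL : LinH E) {i j : ι} (hij : i ≠ j) {a b : V} (h1 : a ∈ E i) (h2 : a ∈ E j)
    (h3 : b ∈ E i) (h4 : b ∈ E j) : a = b :=
  card_le_one.1 (hL.lin i j hij) a (mem_inter.2 ⟨h1, h2⟩) b (mem_inter.2 ⟨h3, h4⟩)

omit [Fintype ι] [DecidableEq ι] in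
theorem st_del (R : Finset ι) (x u : V) :
    st E (del E R x) u = (st E R u).filter fun i => x ∉ E i := by
  ext i
  simp only [st, del, mem_filter]
  tauto

omit [DecidableEq ι] in
theorem dg_del (hL : LinH E) (R : Finset ι) {x u : V} (hux : u ≠ x) :
    dg E R u ≤ dg E (del E R x) u + 1 := by
  have h1 := card_filter_add_card_filter_not (s := st E R u) fun i => x ∈ E i
  have h2 : ((st E R u).filter fun i => x ∈ E i).card ≤ 1 := by
    refine card_le_one.2 fun i hi j hj => ?_
    by_contra hij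
    simp only [st, mem_filter] at hi hj
    exact hux (two hL hij hi.1.2 hj.1.2 hi.2 hj.2)
  rw [dg, dg, st_del]
  omega

omit [Fintype ι] [DecidableEq ι] in
theorem dg_del_eq (R : Finset ι) {x u : V} (h : ¬ ∃ i ∈ R, u ∈ E i ∧ x ∈ E i) :
    dg E (del E R x) u = dg E R u := by
  rw [dg, dg, st_del, filter_true_of_mem]
  intro i hi hx
  simp only [st, mem_filter] at hi
  exact h ⟨i, hi.1, hi.2, hx⟩

/-- vertices of degree two of the edge `f` joined to `x`. -/
def DD (E : ι → Finset V) (R : Finset ι) (v : V) (f : ι) (x : V) : ℕ :=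
  ∑ u ∈ (E f).erase v, if dg E R u = 2 ∧ ∃ i ∈ R, u ∈ E i ∧ x ∈ E i then 1 else 0

omit [DecidableEq ι] in
theorem drop (hL : LinH E) (R : Finset ι) (v : V) (f : ι) {x : V} (hx : x ∉ E f) :
    mc E R v f + hc E R v f ≤ mc E (del E R x) v f + hc E (del E R x) v f + DD E R v f x := by
  simp only [mc, hc, DD, card_filter, ← sum_add_distrib]
  refine sum_le_sum fun u hu => ?_
  have hux : u ≠ x := fun h => hx (h ▸ mem_of_mem_erase hu)
  have h1 := dg_del hL R hux
  by_cases h : ∃ i ∈ R, u ∈ E i ∧ x ∈ E i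
  · simp only [h, and_true]
    split_ifs <;> omega
  · rw [dg_del_eq R h]
    omega

theorem sumD (hL : LinH E) {R : Finset ι} {v : V} {e f : ι} (hef : e ≠ f) (he : v ∈ E e)
    (hf : v ∈ E f) (hfR : f ∈ R) : ∑ x ∈ (E e).erase v, DD E R v f x ≤ mc E R v f := by
  simp only [DD, mc, card_filter]
  rw [sum_comm]
  refine sum_le_sum fun u hu => ?_
  by_cases h2 : dg E R u = 2
  · rw [if_pos h2, ← card_filter]
    refine card_le_one.2 fun x hx y hy => ?_
    simp only [mem_filter, mem_erase] at hx hy hu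
    obtain ⟨⟨x1, x2⟩, -, i, i1, i2, i3⟩ := hx
    obtain ⟨⟨y1, y2⟩, -, j, j1, j2, j3⟩ := hy
    have hi : i ≠ f := fun h => x1 (two hL hef x2 (h ▸ i3) he hf)
    have hj : j ≠ f := fun h => y1 (two hL hef y2 (h ▸ j3) he hf)
    have hie : i ≠ e := fun h => hu.1 (two hL hef (h ▸ i2) hu.2 he hf)
    have hij : i = j := by
      have h3 : ((st E R u).erase f).card ≤ 1 := by
        rw [card_erase_of_mem (show f ∈ st E R u from mem_filter.2 ⟨hfR, hu.2⟩)]
        rw [dg] at h2
        exact (congrArg (· - 1) h2).le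
      exact card_le_one.1 h3 i (mem_erase.2 ⟨hi, mem_filter.2 ⟨i1, i2⟩⟩) j
        (mem_erase.2 ⟨hj, mem_filter.2 ⟨j1, j2⟩⟩)
    exact two hL hie i3 x2 (hij ▸ j3) y2
  · simp [h2]

omit [Fintype ι] [DecidableEq ι] in
theorem pr_two {R : Finset ι} {v : V} (h : dg E R v = 2) : pr E R v = 30182 / 100000 := by
  simp [pr, h, phi]

theorem side (hL : LinH E) {R : Finset ι} {v : V} {e f : ι} (hef : e ≠ f)
    (hst : st E R v = {e, f}) :
    (b2 (hc E R v e) (mc E R v f) (hc E R v f) : ℝ) ≤
      150910 + 1000000 * ∑ x ∈ (E e).erase v, mu E R x * (pr E R v - pr E (del E R x) v) := by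
  have he : e ∈ st E R v := by rw [hst]; simp
  have hf : f ∈ st E R v := by rw [hst]; simp
  rw [st, mem_filter] at he hf
  have h2 : dg E R v = 2 := by rw [dg, hst, card_pair hef]
  set A := ((E e).erase v).filter fun u => 3 ≤ dg E R u with hA
  have e1 : ∀ x ∈ (E e).erase v, 1000000 * (mu E R x * (pr E R v - pr E (del E R x) v)) =
      if 3 ≤ dg E R x then
        15546 + 2706 * ((mc E (del E R x) v f + hc E (del E R x) v f : ℕ) : ℝ) else 0 := by
    intro x hx
    rw [mem_erase] at hx
    have hxf : x ∉ E f := fun h => hx.1 (two hL hef hx.2 h he.2 hf.2)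
    have h3 : st E (del E R x) v = {f} := by
      rw [st_del, hst, filter_insert, if_neg (not_not.2 hx.2), filter_singleton, if_pos hxf]
    have h4 : dg E (del E R x) v = 1 := by rw [dg, h3, card_singleton]
    rw [pr_two h2, pr, h4, h3, if_pos rfl, sum_singleton, mu]
    split_ifs
    · simp only [phi]
      push_cast
      ring
    · simp
  rw [mul_sum, sum_congr rfl e1, ← sum_filter, ← hA, sum_add_distrib, ← mul_sum, sum_const,
    ← Nat.cast_sum, nsmul_eq_mul]
  have e2 : hc E R v e = A.card := rfl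
  have e3 : A.card * (mc E R v f + hc E R v f) ≤
      ∑ x ∈ A, (mc E (del E R x) v f + hc E (del E R x) v f) + ∑ x ∈ A, DD E R v f x := by
    rw [← sum_add_distrib, ← smul_eq_mul, ← sum_const]
    refine sum_le_sum fun x hx => drop hL R v f fun h => ?_
    have hx' := mem_erase.1 (mem_filter.1 hx).1
    exact hx'.1 (two hL hef hx'.2 h he.2 hf.2)
  have e4 : ∑ x ∈ A, DD E R v f x ≤ if A.card = 0 then 0 else mc E R v f := by
    split_ifs with h
    · rw [card_eq_zero.1 h, sum_empty]
    · exact (sum_le_sum_of_subset (filter_subset _ _)).trans (sumD hL hef he.2 hf.2 hf.1)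
  have e5 := (Nat.cast_le (α := ℝ)).2 (e3.trans (Nat.add_le_add_left e4 _))
  rw [b2, e2]
  push_cast at e5 ⊢
  linarith

end Bud2x

theorem p_Bud2 : S_Bud 2 := by
  intro V ι _ _ _ _ E hL R v h2
  obtain ⟨e, f, hef, hst⟩ := card_eq_two.1 h2
  have he : e ∈ st E R v := by rw [hst]; simp
  have hf : f ∈ st E R v := by rw [hst]; simp
  rw [st, mem_filter] at he hf
  have s1 := Bud2x.side hL hef hst
  have s2 := Bud2x.side hL hef.symm (hst.trans (pair_comm e f))
  have e1 : lbf (st E R v) (mc E R v) (hc E R v) =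
      b2 (hc E R v e) (mc E R v f) (hc E R v f) + b2 (hc E R v f) (mc E R v e) (hc E R v e) := by
    rw [lbf, hst, card_pair hef, if_neg (by omega), if_pos rfl, sum_pair hef,
      erase_insert (by simpa using hef), pair_comm e f,
      erase_insert (by simpa using hef.symm), sum_singleton, sum_singleton]
  have e2 : mu E R v = 0 := by rw [mu, h2, if_neg (by omega)]
  have hd : Disjoint ((E e).erase v) ((E f).erase v) := by
    rw [disjoint_left]
    intro x hx hy
    rw [mem_erase] at hx hy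
    exact hx.1 (Bud2x.two hL hef hx.2 hy.2 he.2 hf.2)
  have e3 : ∑ x ∈ univ.erase v, mu E R x * (pr E R v - pr E (del E R x) v) =
      ∑ x ∈ (E e).erase v, mu E R x * (pr E R v - pr E (del E R x) v) +
        ∑ x ∈ (E f).erase v, mu E R x * (pr E R v - pr E (del E R x) v) := by
    rw [← sum_union hd]
    refine (sum_subset ?_ fun x hx hx' => ?_).symm
    · intro x hx
      rcases mem_union.1 hx with h | h <;> exact mem_erase.2 ⟨(mem_erase.1 h).1, mem_univ _⟩
    · have hxv := (mem_erase.1 hx).1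
      have h3 : dg E (del E R x) v = 2 := by
        rw [Bud2x.dg_del_eq R, h2]
        rintro ⟨i, i1, i2, i3⟩
        have : i ∈ st E R v := mem_filter.2 ⟨i1, i2⟩
        rw [hst, mem_insert, mem_singleton] at this
        rcases this with rfl | rfl
        · exact hx' (mem_union_left _ (mem_erase.2 ⟨hxv, i3⟩))
        · exact hx' (mem_union_right _ (mem_erase.2 ⟨hxv, i3⟩))
      rw [Bud2x.pr_two h2, Bud2x.pr_two h3, sub_self, mul_zero]
  have e4 := Bud2x.pr_two h2
  rw [e1, bud, e2, e3]
  push_cast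
  linarith

end Pool.Agent.P.MP_b2082d_co.Lin
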