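import Pool.Agent.P.MP_b2082d_co.L.LDefs

/-! The budget at vertices of degree zero, three and four. -/

namespace Pool.Agent.P.MP_b2082d_co.Lin
open Finset

namespace Bud34x

variable {V ι : Type} [DecidableEq V] {E : ι → Finset V}

theorem dg_del (R : Finset ι) (x v : V) :
    ((st E R v).filter fun i => x ∈ E i).card + dg E (del E R x) v = dg E R v := by
  rw [dg, dg, show st E (del E R x) v = (st E R v).filter fun i => ¬ x ∈ E i from
    filter_comm _ _ _, card_filter_add_card_filter_not]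

theorem le_one [Fintype ι] (h : LinH E) (R : Finset ι) {x v : V} (hx : x ≠ v) :
    ((st E R v).filter fun i => x ∈ E i).card ≤ 1 := by
  refine card_le_one.2 fun i hi j hj => by_contra fun hij => hx ?_
  simp only [st, mem_filter] at hi hj
  exact card_le_one.1 (h.lin i j hij) x (mem_inter.2 ⟨hi.2, hj.2⟩) v (mem_inter.2 ⟨hi.1.2, hj.1.2⟩)

theorem pr_eq {R : Finset ι} {v : V} {d : ℕ} (hd : dg E R v = d) (h : d ≠ 1) :
    pr E R v = (phi d : ℝ) / 100000 := by
  rw [pr, hd, if_neg h, sub_zero]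

theorem bud_eq [Fintype V] [Fintype ι] (h : LinH E) {R : Finset ι} {v : V} {d : ℕ}
    (hd : dg E R v = d + 3) : bud E (pr E) (mu E) R v =
      (phi (d + 3) : ℝ) / 100000 - 3 / 10 * (1 - (phi (d + 3) : ℝ) / 100000) +
        3 / 10 * (((phi (d + 3) : ℝ) - phi (d + 2)) / 100000) * ∑ i ∈ st E R v, (hc E R v i : ℝ) := by
  have h1 : ∀ i, (hc E R v i : ℝ) =
      ∑ x ∈ univ.erase v, if 3 ≤ dg E R x then (if x ∈ E i then 1 else 0) else 0 := fun i => by
    simp only [← ite_and, sum_boole, hc]
    congr 2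
    ext x
    simp only [mem_filter, mem_erase, mem_univ]
    tauto
  rw [bud, pr_eq hd (by omega), mu, if_pos (by omega), sum_congr rfl fun i _ => h1 i, sum_comm,
    mul_sum]
  congr 1
  refine sum_congr rfl fun x hx => ?_
  have h2 := dg_del (E := E) R x v
  have h3 := le_one h R (mem_erase.1 hx).1
  rw [mu]
  split_ifs with h4
  · rw [sum_boole]
    rcases Nat.le_one_iff_eq_zero_or_eq_one.1 h3 with h5 | h5
    · rw [h5, pr_eq (d := d + 3) (by omega) (by omega)]
      simp
    · rw [h5, pr_eq (d := d + 2) (by omega) (by omega)]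
      simp [sub_div]
  · simp

end Bud34x

open Bud34x

theorem p_Bud0 : S_Bud 0 := by
  intro V ι _ _ _ _ E _ R v hd
  have h1 : ∀ x, pr E (del E R x) v = (phi 0 : ℝ) / 100000 := fun x =>
    pr_eq (by have := dg_del (E := E) R x v; omega) (by omega)
  have h2 : (st E R v).card = 0 := hd
  simp [bud, h1, pr_eq hd, mu, hd, lbf, h2, phi]

theorem p_Bud3 : S_Bud 3 := by
  intro V ι _ _ _ _ E h R v hd
  have h2 : (st E R v).card = 3 := hd
  rw [bud_eq h (d := 0) hd]
  simp only [lbf, h2, phi]
  norm_num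
  linarith

theorem p_Bud4 : S_Bud 4 := by
  intro V ι _ _ _ _ E h R v hd
  have h2 : (st E R v).card = 4 := hd
  rw [bud_eq h (d := 1) hd]
  simp only [lbf, h2, phi]
  norm_num
  linarith

end Pool.Agent.P.MP_b2082d_co.Lin
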