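import Pool.Agent.P.MP_b2082d_co.L.LDefs

namespace Pool.Agent.P.MP_b2082d_co.Lin
open Finset

theorem p_Col : S_Col := by
  intro V ι _ _ _ E hE hd
  have key : ∀ A : Finset V, ∃ χ : V → Fin 13, ∀ i, ∀ u ∈ E i, ∀ v ∈ E i, u ∈ A → v ∈ A →
      χ u = χ v → u = v := by
    intro A
    induction A using Finset.induction_on with
    | empty => exact ⟨fun _ => 0, by simp⟩
    | insert x A hx ih =>
      obtain ⟨χ, hχ⟩ := ih
      have h1 : (((univ.filter fun i => x ∈ E i).biUnion fun i => (E i).erase x).image χ).card <
          (univ : Finset (Fin 13)).card := by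
        refine card_image_le.trans_lt (card_biUnion_le.trans_lt ?_)
        rw [sum_congr rfl (g := fun _ => 3) fun i hi => by
          rw [card_erase_of_mem (mem_filter.1 hi).2, hE]]
        have := hd x
        simp only [sum_const, smul_eq_mul, card_univ, Fintype.card_fin]
        omega
      obtain ⟨c, -, hc⟩ := exists_mem_notMem_of_card_lt_card h1
      have h2 : ∀ i, x ∈ E i → ∀ v ∈ E i, v ≠ x → χ v ≠ c := fun i hi v hv hne e =>
        hc (mem_image.2 ⟨v, mem_biUnion.2 ⟨i, by simpa using hi, mem_erase.2 ⟨hne, hv⟩⟩, e⟩)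
      refine ⟨Function.update χ x c, fun i u hu v hv hu' hv' e => ?_⟩
      by_cases a : u = x <;> by_cases b : v = x
      · rw [a, b]
      · rw [a, Function.update_self, Function.update_of_ne b] at e
        exact absurd e.symm (h2 i (a ▸ hu) v hv b)
      · rw [b, Function.update_self, Function.update_of_ne a] at e
        exact absurd e (h2 i (b ▸ hv) u hu a)
      · rw [Function.update_of_ne a, Function.update_of_ne b] at e
        exact hχ i u hu v hv ((mem_insert.1 hu').resolve_left a) ((mem_insert.1 hv').resolve_left b) e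
  obtain ⟨χ, hχ⟩ := key univ
  exact ⟨χ, fun i u hu v hv => hχ i u hu v hv (mem_univ _) (mem_univ _)⟩

end Pool.Agent.P.MP_b2082d_co.Lin
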