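import Pool.Agent.P.MP_b2082d_co.L.LDefs
import Pool.Agent.P.MP_5359c6_lc.Committee

namespace Pool.Agent.P.MP_b2082d_co.Lin
open Finset

theorem p_Dual : S_Dual := by
  classical
  intro V ι _ _ _ _ E c hc h
  obtain ⟨T0, hT0, -⟩ := h 0 fun _ => le_rfl
  have : Nonempty {T : Finset V // IsTransversal E T} := ⟨⟨T0, hT0⟩⟩
  obtain ⟨p, p0, p1, p2⟩ := MP_5359c6_lc.minimax (I := {T : Finset V // IsTransversal E T})
    (fun T v => if v ∈ T.1 then 1 else 0) c fun μ h0 h1 => by
      obtain ⟨T, hT, h2⟩ := h μ h0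
      exact ⟨⟨T, hT⟩, by simpa [h1] using h2⟩
  by_contra hlt
  obtain ⟨r, r1, r2⟩ := exists_rat_btwn (max_lt (not_le.1 hlt) (one_div_pos.2 hc))
  have r0 : (0 : ℝ) < r := (le_max_right _ _).trans_lt r1
  have r3 : c < 1 / (r : ℝ) := (lt_one_div r0 hc).1 r2
  obtain ⟨n, hn⟩ := exists_nat_gt
    ((Fintype.card {T : Finset V // IsTransversal E T} : ℝ) / (1 / (r : ℝ) - c))
  rw [div_lt_iff₀ (sub_pos.2 r3)] at hn
  have n0 : (0 : ℝ) < n := pos_of_mul_pos_left ((Nat.cast_nonneg _).trans_lt hn) (sub_pos.2 r3).le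
  set F : Multiset (Finset V) :=
    ∑ T : {T : Finset V // IsTransversal E T}, Multiset.replicate ⌈n * p T⌉₊ T.1 with hF
  have c1 : (n : ℝ) ≤ Multiset.card F := by
    have e : (n : ℝ) = ∑ T, n * p T := by rw [← mul_sum, p1, mul_one]
    rw [hF, Multiset.card_sum]
    push_cast
    exact e.trans_le (sum_le_sum fun T _ => by simpa using Nat.le_ceil (n * p T))
  have c2 : ∀ v, ((F.countP fun T => v ∈ T : ℕ) : ℝ) ≤
      n * c + Fintype.card {T : Finset V // IsTransversal E T} := fun v => by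
    have e : (F.countP fun T => v ∈ T) = ∑ T : {T : Finset V // IsTransversal E T},
        (Multiset.replicate ⌈n * p T⌉₊ T.1).countP fun T => v ∈ T :=
      map_sum (Multiset.countPAddMonoidHom fun T => v ∈ T) _ _
    rw [e]
    push_cast
    refine le_trans (sum_le_sum (g := fun T => n * (p T * if v ∈ T.1 then 1 else 0) + 1)
      fun T _ => ?_) ?_
    · by_cases hv : v ∈ T.1
      · rw [Multiset.countP_eq_card.2 fun a ha => Multiset.eq_of_mem_replicate ha ▸ hv]
        simpa [hv] using (Nat.ceil_lt_add_one (mul_nonneg n0.le (p0 T))).le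
      · rw [Multiset.countP_eq_zero.2 fun a ha => Multiset.eq_of_mem_replicate ha ▸ hv]
        simp [hv]
    · rw [sum_add_distrib, ← mul_sum, sum_const, card_univ, nsmul_eq_mul, mul_one]
      exact add_le_add (mul_le_mul_of_nonneg_left (p2 v) n0.le) le_rfl
  have r0' : 0 < r := by exact_mod_cast r0
  have key := le_FDT E (Classical.arbitrary ι) F (fun h0 => by
    rw [h0, Multiset.card_zero, Nat.cast_zero] at c1
    linarith) (fun T hT => by
      obtain ⟨T', -, h1⟩ := Multiset.mem_sum.1 hT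
      exact Multiset.eq_of_mem_replicate h1 ▸ T'.2) (1 / r) (one_div_pos.2 r0') fun v => by
    have h1 := mul_le_mul_of_nonneg_left c1 (one_div_pos.2 r0).le
    have h2 : ((F.countP fun T => v ∈ T : ℕ) : ℝ) ≤ 1 / (r : ℝ) * Multiset.card F := by
      linarith [c2 v]
    exact_mod_cast h2
  rw [one_div_one_div] at key
  exact absurd ((le_max_left _ _).trans_lt r1) (not_lt.2 key)

end Pool.Agent.P.MP_b2082d_co.Lin
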