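import Pool.Agent.P.MP_b2082d_co.L.LDefs

/-! The inequality at one edge. -/

namespace Pool.Agent.P.MP_b2082d_co.Lin
open Finset

namespace Edgex

/-- the share of a vertex of type `a` when the other vertices have degrees `x, y, z`. -/
def sh (a : ℕ × ℕ) (x y z u : ℕ) : ℤ :=
  Z a.1 a.2 ((if x = 2 then 1 else 0) + ((if y = 2 then 1 else 0) + if z = 2 then 1 else 0))
    ((if 3 ≤ x then 1 else 0) + ((if 3 ≤ y then 1 else 0) + if 3 ≤ z then 1 else 0)) u

def L : List (ℕ × ℕ) :=
  [(1, 1), (2, 1), (2, 2), (3, 1), (3, 2), (3, 3), (4, 1), (4, 2), (4, 3), (4, 4)]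

def ok (a b c d : ℕ × ℕ) (u : ℕ) : Bool :=
  decide (u < 4 ∧ 4 + 2 * u < a.2 + (b.2 + (c.2 + d.2))) ||
    decide ((2 * (u : ℤ) + 2) * 1000000 ≤ (2 * (u : ℤ) + 1) * (sh a b.1 c.1 d.1 u +
      (sh b a.1 c.1 d.1 u + (sh c a.1 b.1 d.1 u + sh d a.1 b.1 c.1 u))))

theorem chk : (L.all fun a => L.all fun b => L.all fun c => L.all fun d =>
    (List.range 5).all fun u => ok a b c d u) = true := by decide +kernel

theorem mem_L {d j : ℕ} (h : 1 ≤ j ∧ j ≤ d ∧ d ≤ 4) : (d, j) ∈ L := by
  obtain ⟨h1, h2, h3⟩ := h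
  interval_cases d <;> interval_cases j <;> simp [L]

theorem sh_eq {V : Type} [DecidableEq V] (d j : V → ℕ) (u : ℕ) (v : V) {s : Finset V} {x y z : V}
    (hs : s = {x, y, z}) (h1 : x ≠ y) (h2 : x ≠ z) (h3 : y ≠ z) :
    Z (d v) (j v) (s.filter fun x => d x = 2).card (s.filter fun x => 3 ≤ d x).card u =
      sh (d v, j v) (d x) (d y) (d z) u := by
  have hx : x ∉ ({y, z} : Finset V) := by simp [h1, h2]
  rw [hs, card_filter, card_filter, sum_insert hx, sum_insert hx, sum_pair h3, sum_pair h3, sh]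

end Edgex

open Edgex in
theorem p_Edge : S_Edge := by
  intro V _ e d j u he h hu hj
  obtain ⟨a, b, c, f, ab, ac, af, bc, bf, cf, rfl⟩ := card_eq_four.1 he
  have hs : ∀ {M : Type} [AddCommMonoid M] (g : V → M),
      ∑ v ∈ ({a, b, c, f} : Finset V), g v = g a + (g b + (g c + g f)) := fun g => by
    rw [sum_insert (by simp [ab, ac, af]), sum_insert (by simp [bc, bf]), sum_pair cf]
  have key := chk
  simp only [List.all_eq_true] at key
  have k2 := key _ (mem_L (h a (by simp))) _ (mem_L (h b (by simp))) _ (mem_L (h c (by simp))) _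
    (mem_L (h f (by simp))) u (List.mem_range.2 (by omega))
  rw [hs] at hj
  rw [hs, sh_eq d j u a (x := b) (y := c) (z := f) (by grind) bc bf cf,
    sh_eq d j u b (x := a) (y := c) (z := f) (by grind) ac af cf,
    sh_eq d j u c (x := a) (y := b) (z := f) (by grind) ab af bf,
    sh_eq d j u f (x := a) (y := b) (z := c) (by grind) ab ac bc]
  simp only [ok, Bool.or_eq_true, decide_eq_true_eq] at k2
  exact k2.resolve_left fun k => absurd (hj k.1) (by omega)

end Pool.Agent.P.MP_b2082d_co.Lin
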