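import Pool.Agent.P.MP_b2082d_co.L.LDefs

/-! Mixing deletion steps with a pair cover. -/

namespace Pool.Agent.P.MP_b2082d_co.Lin
open Finset

namespace Mixx

theorem sum_bud {V ι : Type} [Fintype V] [DecidableEq V] (E : ι → Finset V)
    (P μ : Finset ι → V → ℝ) (R : Finset ι) (w : V → ℝ) :
    ∑ v, w v * bud E P μ R v = ∑ v, w v * P R v + ∑ x, μ R x *
      (∑ v, w v * P R v - (w x + ∑ v ∈ univ.erase x, w v * P (del E R x) v)) := by
  have h1 : ∑ v, ∑ x ∈ univ.erase v, w v * (μ R x * (P R v - P (del E R x) v)) =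
      ∑ x, ∑ v ∈ univ.erase x, w v * (μ R x * (P R v - P (del E R x) v)) :=
    sum_comm' fun v x => by simp [eq_comm]
  simp only [bud, mul_add, mul_sum, sum_add_distrib]
  rw [h1, ← sum_add_distrib, ← sum_add_distrib]
  refine sum_congr rfl fun x _ => ?_
  have h2 : ∑ v ∈ univ.erase x, w v * (μ R x * (P R v - P (del E R x) v)) = μ R x *
      (∑ v ∈ univ.erase x, w v * P R v - ∑ v ∈ univ.erase x, w v * P (del E R x) v) := by
    rw [← sum_sub_distrib, mul_sum]
    exact sum_congr rfl fun _ _ => by ring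
  rw [h2, ← add_sum_erase univ (fun v => w v * P R v) (mem_univ x)]
  ring

end Mixx

theorem p_Mix : S_Mix := by
  intro V ι _ _ E P μ h0 h1 h2 h3 R w hw
  induction R using Finset.strongInduction with
  | H R ih =>
    by_cases h : ∃ x, μ R x ≠ 0 ∧
        w x + ∑ v ∈ univ.erase x, w v * P (del E R x) v ≤ ∑ v, w v * P R v
    · obtain ⟨x, hx, h⟩ := h
      obtain ⟨i, hi, hxi⟩ := h1 R x hx
      obtain ⟨T, hT, hs⟩ := ih (del E R x) (filter_ssubset.2 ⟨i, hi, not_not.2 hxi⟩)
      refine ⟨insert x T, fun j hj => ?_, ?_⟩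
      · by_cases a : x ∈ E j
        · exact ⟨x, mem_inter.2 ⟨mem_insert_self _ _, a⟩⟩
        · exact (hT j (mem_filter.2 ⟨hj, a⟩)).mono
            (inter_subset_inter_right (subset_insert _ _))
      · rw [← add_sum_erase univ (fun v => w v * P (del E R x) v) (mem_univ x)] at hs
        have a := mul_nonpos_of_nonneg_of_nonpos (hw x) (h2 R x)
        have b : ∑ v ∈ insert x T, w v ≤ w x + ∑ v ∈ T, w v := by
          by_cases c : x ∈ T
          · rw [insert_eq_of_mem c]; linarith [hw x]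
          · rw [sum_insert c]
        linarith
    · obtain ⟨T, hT, hs⟩ := h3 R w hw
      refine ⟨T, hT, hs.trans ?_⟩
      rw [Mixx.sum_bud, add_le_iff_nonpos_right]
      refine sum_nonpos fun x _ => ?_
      by_cases a : μ R x = 0
      · rw [a, zero_mul]
      · exact mul_nonpos_of_nonneg_of_nonpos (h0 R x)
          (sub_nonpos.2 (not_le.1 fun b => h ⟨x, a, b⟩).le)

end Pool.Agent.P.MP_b2082d_co.Lin
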