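import Pool.Agent.P.MP_b2082d_co.L.LDefs

/-! The pair weights at vertices of degree three and four. -/

namespace Pool.Agent.P.MP_b2082d_co.Lin
open Finset

namespace Q34x

variable {ι : Type} [DecidableEq ι]

theorem red [Fintype ι] (s : Finset ι) (f : ι → ι → ℤ)
    (hf : ∀ i j, ¬ (i ∈ s ∧ j ∈ s) → f i j = 0) :
    ∑ i, ∑ j, f i j = ∑ i ∈ s, ∑ j ∈ s, f i j := by
  rw [← sum_subset (subset_univ s) fun i _ hi => sum_eq_zero fun j _ => hf i j fun h => hi h.1]
  exact sum_congr rfl fun i _ =>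
    (sum_subset (subset_univ s) fun j _ hj => hf i j fun h => hj h.2).symm

theorem lhs (S s : Finset ι) (g : ℕ → ι → ℤ) :
    ∑ i ∈ S ∩ s, g (S ∩ s).card i =
      ∑ i ∈ s, if i ∈ S then g (∑ k ∈ s, if k ∈ S then 1 else 0) i else 0 := by
  rw [inter_comm, ← filter_mem_eq_inter, sum_filter, card_filter]

/-- The general form of the weights. -/
def qg (A B C H : ℤ) (h : ι → ℕ) (i j : ι) : ℤ :=
  if i = j then 0 else A + B * ((h i : ℤ) + h j) - C * (H - h i - h j)

theorem main [Fintype ι] (s : Finset ι) (m h : ι → ℕ) (d : ℕ) (g : ι → ι → ℤ) (L : ℤ)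
    (hq : ∀ i ∈ s, ∀ j ∈ s, qf s m h i j = g i j) (hl : lbf s m h = L)
    (h1 : ∀ i ∈ s, ∀ j ∈ s, 0 ≤ g i j) (h2 : ∑ i ∈ s, ∑ j ∈ s, g i j ≤ 2 * L)
    (h3 : ∀ (S : Finset ι) (u : ℕ),
      (∑ i ∈ s, if i ∈ S then Z d (∑ k ∈ s, if k ∈ S then 1 else 0) (m i) (h i) u else 0) ≤
        ∑ i ∈ s, ∑ j ∈ s, if i ∈ S ∨ j ∈ S then g i j else 0) :
    (∀ i j, 0 ≤ qf s m h i j) ∧ ∑ i, ∑ j, qf s m h i j ≤ 2 * lbf s m h ∧
      ∀ (S : Finset ι) (u : ℕ), ∑ i ∈ S ∩ s, Z d (S ∩ s).card (m i) (h i) u ≤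
        ∑ i, ∑ j, if i ∈ S ∨ j ∈ S then qf s m h i j else 0 := by
  have h0 : ∀ i j, ¬ (i ∈ s ∧ j ∈ s) → qf s m h i j = 0 := fun i j hn => if_neg hn
  refine ⟨fun i j => ?_, ?_, fun S u => ?_⟩
  · by_cases hn : i ∈ s ∧ j ∈ s
    · rw [hq i hn.1 j hn.2]
      exact h1 i hn.1 j hn.2
    · exact (h0 i j hn).ge
  · rw [red s _ h0, hl, sum_congr rfl fun i hi => sum_congr rfl fun j hj => hq i hi j hj]
    exact h2
  · rw [lhs S s fun n i => Z d n (m i) (h i) u, red s _ fun i j hn => by rw [h0 i j hn, ite_self]]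
    refine (h3 S u).trans (le_of_eq (sum_congr rfl fun i hi => sum_congr rfl fun j hj => ?_))
    rw [hq i hi j hj]

end Q34x

open Q34x

theorem p_Q3 : S_Q 3 := by
  intro ι _ _ s m h hs hb
  have hq : ∀ i ∈ s, ∀ j ∈ s, qf s m h i j = qg 66200 23100 21900 (∑ k ∈ s, (h k : ℤ)) h i j :=
    fun i hi j hj => by simp [qf, qg, hi, hj, hs]
  have hl : lbf s m h = 198706 + 24540 * ∑ i ∈ s, (h i : ℤ) := by simp [lbf, hs]
  obtain ⟨a, b, c, hab, hac, hbc, rfl⟩ := card_eq_three.1 hs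
  have hsum : ∀ {M : Type} [AddCommMonoid M] (f : ι → M),
      ∑ i ∈ ({a, b, c} : Finset ι), f i = f a + (f b + f c) := fun f => by
    rw [sum_insert (by simp [hab, hac]), sum_pair hbc]
  have ha := hb a (by simp)
  have hb' := hb b (by simp)
  have hc := hb c (by simp)
  refine main _ m h 3 _ _ hq hl (fun i hi j hj => ?_) ?_ fun S u => ?_
  · rw [qg, hsum]
    split_ifs with hij
    · exact le_rfl
    simp only [mem_insert, mem_singleton] at hi hj
    rcases hi with rfl | rfl | rfl <;> rcases hj with rfl | rfl | rfl <;>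
      first | exact absurd rfl hij | omega
  · simp only [hsum, qg, hab, hac, hbc, hab.symm, hac.symm, hbc.symm, if_true, if_false]
    omega
  · simp only [hsum, qg, hab, hac, hbc, hab.symm, hac.symm, hbc.symm, if_true, if_false]
    by_cases ea : a ∈ S <;> by_cases eb : b ∈ S <;> by_cases ec : c ∈ S <;>
      simp only [ea, eb, ec, Z, if_true, if_false, or_true, true_or, or_false, false_or,
        Nat.reduceAdd, Nat.reduceEqDiff, OfNat.ofNat_ne_one, OfNat.one_ne_ofNat] <;> omega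

theorem p_Q4 : S_Q 4 := by
  intro ι _ _ s m h hs hb
  have hq : ∀ i ∈ s, ∀ j ∈ s, qf s m h i j = qg 49050 12950 5650 (∑ k ∈ s, (h k : ℤ)) h i j :=
    fun i hi j hj => by simp [qf, qg, hi, hj, hs]
  have hl : lbf s m h = 294386 + 22080 * ∑ i ∈ s, (h i : ℤ) := by simp [lbf, hs]
  obtain ⟨a, b, c, d, hab, hac, had, hbc, hbd, hcd, rfl⟩ := card_eq_four.1 hs
  have hsum : ∀ {M : Type} [AddCommMonoid M] (f : ι → M),
      ∑ i ∈ ({a, b, c, d} : Finset ι), f i = f a + (f b + (f c + f d)) := fun f => by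
    rw [sum_insert (by simp [hab, hac, had]), sum_insert (by simp [hbc, hbd]), sum_pair hcd]
  have ha := hb a (by simp)
  have hb' := hb b (by simp)
  have hc := hb c (by simp)
  have hd := hb d (by simp)
  refine main _ m h 4 _ _ hq hl (fun i hi j hj => ?_) ?_ fun S u => ?_
  · rw [qg, hsum]
    split_ifs with hij
    · exact le_rfl
    simp only [mem_insert, mem_singleton] at hi hj
    rcases hi with rfl | rfl | rfl | rfl <;> rcases hj with rfl | rfl | rfl | rfl <;>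
      first | exact absurd rfl hij | omega
  · simp only [hsum, qg, hab, hac, had, hbc, hbd, hcd, hab.symm, hac.symm, had.symm, hbc.symm,
      hbd.symm, hcd.symm, if_true, if_false]
    omega
  · simp only [hsum, qg, hab, hac, had, hbc, hbd, hcd, hab.symm, hac.symm, had.symm, hbc.symm,
      hbd.symm, hcd.symm, if_true, if_false]
    by_cases ea : a ∈ S <;> by_cases eb : b ∈ S <;> by_cases ec : c ∈ S <;> by_cases ed : d ∈ S <;>
      simp only [ea, eb, ec, ed, Z, if_true, if_false, or_true, true_or, or_false, false_or,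
        Nat.reduceAdd, Nat.reduceEqDiff, OfNat.ofNat_ne_one, OfNat.one_ne_ofNat] <;> omega

end Pool.Agent.P.MP_b2082d_co.Lin
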