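import Pool.Agent.P.MP_b2082d_co.L.LDefs

/-! The row inequality. -/

namespace Pool.Agent.P.MP_b2082d_co.Lin
open Finset

namespace Rowx

/-- the number of ordered pairs. -/
def Q (x : ℕ) : ℤ := x * (x - 1)

/-- bounded quantifier. -/
def Al (k : ℕ) (p : ℕ → Prop) : Prop := ∀ n ≤ k, p n

instance (k : ℕ) (p : ℕ → Prop) [DecidablePred p] : Decidable (Al k p) :=
  Nat.decidableBallLE k fun n _ => p n

/-- implication. -/
def Im (p q : Prop) : Prop := p → q

instance (p q : Prop) [Decidable p] [Decidable q] : Decidable (Im p q) :=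
  inferInstanceAs (Decidable (p → q))

set_option synthInstance.maxSize 4096 in
theorem chk :
    Al 4 fun n15 => Im (1 ≤ n15) <| Al (4 - n15) fun n14 => Al (4 - n15 - n14) fun n13 => Al (4 -
    n15 - n14 - n13) fun n11 => Al (4 - n15 - n14 - n13 - n11) fun n12 => Al (4 - n15 - n14 - n13
    - n11 - n12) fun n10 => Al (4 - n15 - n14 - n13 - n11 - n12 - n10) fun n9 => Al (4 - n15 -
    n14 - n13 - n12) fun n7 => Al (4 - n15 - n14 - n13 - n12 - n7) fun n6 => Al (4 - n15 - n14 -
    n13 - n12 - n7 - n6) fun n5 => Al (4 - n15 - n14 - n11 - n10 - n7 - n6) fun n3 => Al 3 fun n1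
    => Im (n1 + n3 + n5 + n7 + n9 + n11 + n13 + n15 = 4) <| Al 3 fun n2 => Im (n2 + n3 + n6 + n7
    + n10 + n11 + n14 + n15 = 4) <| Al 3 fun n4 => Im (n4 + n5 + n6 + n7 + n12 + n13 + n14 + n15
    = 4) <| Al 3 fun n8 => Im (n8 + n9 + n10 + n11 + n12 + n13 + n14 + n15 = 4) <| Al 12 fun n0
    => Im (n0 + n1 + n2 + n3 + n4 + n5 + n6 + n7 + n8 + n9 + n10 + n11 + n12 + n13 + n14 + n15 =
    13) <| 25000 * (Q (n0 + n2 + n4 + n6 + n8 + n10 + n12 + n14) + Q (n0 + n1 + n4 + n5 + n8 + n9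
    + n12 + n13) + Q (n0 + n1 + n2 + n3 + n8 + n9 + n10 + n11) + Q (n0 + n1 + n2 + n3 + n4 + n5 +
    n6 + n7)) + 22816 * (Q (n0 + n8) + Q (n0 + n4) + Q (n0 + n2) + Q (n0 + n1)) ≤ 4285714 + 19818
    * (Q (n0 + n4 + n8 + n12) + Q (n0 + n2 + n8 + n10) + Q (n0 + n1 + n8 + n9) + Q (n0 + n2 + n4
    + n6) + Q (n0 + n1 + n4 + n5) + Q (n0 + n1 + n2 + n3)) + 26634 * Q n0 := by
  decide +kernel

/-- disjointness of two masks. -/
def e (A T : Fin 16) : ℤ := if A.1 &&& T.1 = 0 then 1 else 0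

/-- the coefficients of the expansion of `phi`. -/
def cf : Fin 16 → ℤ := ![0, 25000, 25000, -19818, 25000, -19818, -19818, 22816, 25000, -19818,
  -19818, 22816, -19818, 22816, 22816, -26634]

theorem mob : ∀ A B : Fin 16, phi (univ.filter fun i : Fin 4 =>
    ¬ A.1.testBit i ∧ ¬ B.1.testBit i).card = ∑ T, cf T * (e A T * e B T) := by
  decide +kernel

theorem e_sq : ∀ A T, e A T * e A T = e A T := by decide +kernel

theorem mask : ∀ p : Fin 4 → Bool, ∃ A : Fin 16, ∀ i, p i = A.1.testBit i := by decide +kernel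

theorem full : ∀ A : Fin 16, (∀ i : Fin 4, A.1.testBit i) → A = 15 := by decide +kernel

theorem cst : ∀ c : Fin 13, ∑ a : Fin 13, ∑ b : Fin 13,
    (if a = b then 0 else if a = c ∨ b = c then 100000 else 0 : ℤ) = 2400000 := by
  decide +kernel

theorem fin (n : Fin 16 → ℕ) (h0 : ∑ A, (n A : ℤ) * 1 = 13) (h1 : 1 ≤ n 15)
    (h : ∀ i : Fin 4, ∑ A, (n A : ℤ) * (if A.1.testBit i then 1 else 0) = 4) :
    ∑ T, cf T * ((∑ A, n A * e A T) * ∑ A, n A * e A T) - ∑ T, cf T * ∑ A, n A * e A T ≤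
      4285714 := by
  have a0 := h 0
  have a1 := h 1
  have a2 := h 2
  have a3 := h 3
  simp +decide [Fin.sum_univ_succ, e, cf] at h0 a0 a1 a2 a3 ⊢
  have := chk (n 15) (by omega) h1 (n 14) (by omega) (n 13) (by omega) (n 11) (by omega)
    (n 12) (by omega) (n 10) (by omega) (n 9) (by omega) (n 7) (by omega) (n 6) (by omega)
    (n 5) (by omega) (n 3) (by omega) (n 1) (by omega) (by omega) (n 2) (by omega) (by omega)
    (n 4) (by omega) (by omega) (n 8) (by omega) (by omega) (n 0) (by omega) (by omega)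
  simp only [Q] at this
  push_cast at this
  linarith

end Rowx

open Rowx in
theorem p_Row : S_Row := by
  intro c C hC
  choose fp hfp using fun a => mask fun i => decide (a ∈ C i)
  have h1 : ∀ a i, a ∈ C i ↔ (fp a).1.testBit i := fun a i => by rw [← hfp, decide_eq_true_iff]
  have key : ∀ F : Fin 16 → ℤ, ∑ A, (#{a | fp a = A} : ℕ) * F A = ∑ a, F (fp a) := fun F => by
    simp only [← sum_fiberwise' univ fp F, sum_const, nsmul_eq_mul]
  have h2 := fin (fun A => #{a | fp a = A}) (by rw [key fun _ => 1]; simp) (card_pos.2 ⟨c, mem_filter.2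
    ⟨mem_univ _, full _ fun i => (h1 c i).1 (hC i).2⟩⟩) fun i => by
      rw [key fun A => if A.1.testBit i then 1 else 0]
      simp [← h1, (hC i).1]
  have h3 : ∀ a b, (if a = b then 0 else if a = c ∨ b = c then 100000
      else phi (univ.filter fun i => a ∉ C i ∧ b ∉ C i).card) =
      (if a = b then 0 else if a = c ∨ b = c then 100000 else 0) +
        ∑ T, cf T * (e (fp a) T * e (fp b) T) - if a = b then ∑ T, cf T * e (fp a) T else 0 := by
    intro a b
    split_ifs with h h'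
    · simp [← h, e_sq]
    · rw [← mob]
      rcases h' with rfl | rfl <;> simp [← h1, (hC _).2, phi]
    · simp [← mob, h1]
  simp only [h3, sum_sub_distrib, sum_add_distrib, cst, sum_ite_eq, mem_univ, if_true]
  simp only [key, sum_mul_sum] at h2
  simp only [mul_sum] at h2
  rw [sum_comm, sum_comm (s := (univ : Finset (Fin 16))), sum_congr rfl fun _ _ => sum_comm] at h2
  linarith

end Pool.Agent.P.MP_b2082d_co.Lin
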