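import Pool.Agent.P.MP_b2082d_co.L.LDefs

/-! The terminal lemma. -/

namespace Pool.Agent.P.MP_b2082d_co.Lin
open Finset

namespace Termx

variable {V ι : Type} [DecidableEq V] {E : ι → Finset V} {R : Finset ι}

theorem mem_st {v : V} {i : ι} : i ∈ st E R v ↔ i ∈ R ∧ v ∈ E i := mem_filter

variable [Fintype ι]

theorem dg_le (h : LinH E) (v : V) : dg E R v ≤ 4 :=
  (card_le_card fun _ hi => mem_filter.2 ⟨mem_univ _, (mem_st.1 hi).2⟩).trans (h.deg v)

theorem mh_le (h : LinH E) (v : V) : ∀ i ∈ st E R v, mc E R v i + hc E R v i ≤ 3 := fun i hi => by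
  have h1 : ((E i).erase v).card = 3 := by rw [card_erase_of_mem (mem_st.1 hi).2, h.unif]
  rw [mc, hc, ← card_union_of_disjoint (disjoint_filter.2 fun x _ a b => by omega), ← h1]
  exact card_le_card (union_subset (filter_subset _ _) (filter_subset _ _))

variable [DecidableEq ι]

theorem count (h : LinH E) {S : Finset ι} (hS : S ⊆ R) {i : ι} (hi : i ∈ S) :
    ∑ v ∈ E i, (S ∩ st E R v).card ≤ 4 + (S.card - 1) := by
  have h1 : ∀ v ∈ E i, (S ∩ st E R v).card = 1 + ((S ∩ st E R v).erase i).card := fun v hv => by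
    rw [add_comm, card_erase_add_one (mem_inter.2 ⟨hi, mem_st.2 ⟨hS hi, hv⟩⟩)]
  rw [sum_congr rfl h1, sum_add_distrib, ← card_eq_sum_ones, h.unif, ← card_biUnion,
    ← card_erase_of_mem hi]
  · exact Nat.add_le_add_left (card_le_card (biUnion_subset.2 fun v _ =>
      erase_subset_erase i inter_subset_left)) 4
  · intro v hv v' hv' hne
    refine disjoint_left.2 fun k a b => hne ?_
    exact card_le_one.1 (h.lin k i (mem_erase.1 a).1) _
      (mem_inter.2 ⟨(mem_st.1 (mem_inter.1 (mem_of_mem_erase a)).2).2, hv⟩) _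
      (mem_inter.2 ⟨(mem_st.1 (mem_inter.1 (mem_of_mem_erase b)).2).2, hv'⟩)

theorem odd_set [Fintype V] (hQ : ∀ d ≤ 4, S_Q d) (hE : S_Edge) (h : LinH E) {S : Finset ι}
    (hS : S ⊆ R) (ho : Odd S.card) : ((2000000 : ℕ) : ℤ) * (S.card + 1) ≤ 2 * ∑ v, ∑ i, ∑ j,
      if i ∈ S ∨ j ∈ S then qf (st E R v) (mc E R v) (hc E R v) i j else 0 := by
  obtain ⟨k, hk⟩ := ho
  set u := min k 4 with hu
  have h1 := sum_le_sum fun v (_ : v ∈ univ) =>
    (hQ _ (dg_le (R := R) h v) ι (st E R v) (mc E R v) (hc E R v) rfl (mh_le h v)).2.2 S u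
  rw [sum_comm' (t' := S) (s' := E) (fun v i => by
    simp only [mem_univ, mem_inter, mem_st, true_and]
    exact ⟨fun a => ⟨a.2.2, a.1⟩, fun a => ⟨a.2, hS a.2, a.1⟩⟩)] at h1
  have h2 : ∀ i ∈ S, ((S.card : ℤ) + 1) * 1000000 ≤ S.card * ∑ v ∈ E i,
      Z (dg E R v) (S ∩ st E R v).card (mc E R v i) (hc E R v i) u := fun i hi => by
    have h3 := hE V (E i) (dg E R) (fun v => (S ∩ st E R v).card) u (h.unif i)
      (fun v hv => ⟨card_pos.2 ⟨i, mem_inter.2 ⟨hi, mem_st.2 ⟨hS hi, hv⟩⟩⟩,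
        card_le_card inter_subset_right, dg_le h v⟩) (min_le_right _ _) fun h4 => by
        have := count h hS hi
        omega
    change _ ≤ _ * ∑ v ∈ E i, Z (dg E R v) (S ∩ st E R v).card (mc E R v i) (hc E R v i) u at h3
    generalize ∑ v ∈ E i, Z (dg E R v) (S ∩ st E R v).card (mc E R v i) (hc E R v i) u = A at h3
    have h5 : 2 * (u : ℤ) + 1 ≤ S.card := by omega
    have h6 : 1000000 ≤ A := by
      by_contra h7
      nlinarith [Int.natCast_nonneg u]
    nlinarith [mul_nonneg (sub_nonneg.2 h5) (sub_nonneg.2 h6)]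
  have h7 := sum_le_sum h2
  rw [sum_const, ← mul_sum, nsmul_eq_mul] at h7
  have h8 := le_of_mul_le_mul_left h7 (by omega)
  push_cast
  linarith

end Termx

open Termx

theorem p_Term (hC : S_Cover) (hM : S_Mix) (hB : ∀ d ≤ 4, S_Bud d) (hQ : ∀ d ≤ 4, S_Q d)
    (hE : S_Edge) : S_Term := by
  intro V ι _ _ _ _ E h R w hw
  obtain ⟨T, h1, h2⟩ := hM V ι E (pr E) (mu E) (fun R x => by unfold mu; split_ifs <;> norm_num)
    (fun R x hx => by
      have h3 : 3 ≤ dg E R x := by_contra fun h4 => hx (if_neg h4)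
      obtain ⟨i, hi⟩ := card_pos.1 (show 0 < (st E R x).card by unfold dg at h3; omega)
      exact ⟨i, mem_st.1 hi⟩)
    (fun R x => by
      have h3 : dg E (del E R x) x = 0 := card_eq_zero.2 (eq_empty_of_forall_notMem fun i hi =>
        (mem_filter.1 (mem_st.1 hi).1).2 (mem_st.1 hi).2)
      simp [pr, h3, phi])
    (fun R w hw => by
      have hq := fun v =>
        hQ _ (dg_le (R := R) h v) ι (st E R v) (mc E R v) (hc E R v) rfl (mh_le h v)
      obtain ⟨T, t1, t2⟩ := hC V ι E R 2000000 (fun v => qf (st E R v) (mc E R v) (hc E R v))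
        (by norm_num) (fun v => (hq v).1) (fun v i j hn => by
          have h3 : i ∈ st E R v ∧ j ∈ st E R v := by_contra fun h4 => hn (if_neg h4)
          exact ⟨(mem_st.1 h3.1).1, (mem_st.1 h3.2).1, (mem_st.1 h3.1).2, (mem_st.1 h3.2).2⟩)
        (fun S hS ho => odd_set hQ hE h hS ho) w hw
      refine ⟨T, t1, le_of_mul_le_mul_left (t2.trans ?_) (by norm_num)⟩
      rw [mul_sum]
      refine sum_le_sum fun v _ => ?_
      have h3 := hB _ (dg_le (R := R) h v) V ι E h R v rfl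
      have h4 := (Int.cast_le (R := ℝ)).2 (hq v).2.1
      rw [mul_left_comm]
      refine mul_le_mul_of_nonneg_left (h4.trans ?_) (hw v)
      push_cast
      linarith) R w hw
  refine ⟨T, h1, h2.trans (sum_le_sum fun v _ => mul_le_mul_of_nonneg_left ?_ (hw v))⟩
  refine div_le_div_of_nonneg_right (sub_le_self _ ?_) (by norm_num)
  split_ifs
  · positivity
  · exact le_rfl

end Pool.Agent.P.MP_b2082d_co.Lin
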