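import Pool.Agent.P.MP_b2082d_co.L.Stage
import Pool.Agent.P.MP_b2082d_co.L.G1
import Pool.Agent.P.MP_b2082d_co.L.G2
import Pool.Agent.P.MP_b2082d_co.L.Cover
import Pool.Agent.P.MP_b2082d_co.L.Dual
import Pool.Agent.P.MP_b2082d_co.L.Col
import Pool.Agent.P.MP_b2082d_co.L.Row
import Pool.Agent.P.MP_b2082d_co.L.Mix
import Pool.Agent.P.MP_b2082d_co.L.Bud1
import Pool.Agent.P.MP_b2082d_co.L.Bud2
import Pool.Agent.P.MP_b2082d_co.L.Bud34
import Pool.Agent.P.MP_b2082d_co.L.Q012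
import Pool.Agent.P.MP_b2082d_co.L.Q34
import Pool.Agent.P.MP_b2082d_co.L.Edge
import Pool.Agent.P.MP_b2082d_co.L.Term

namespace Pool.Agent.P.MP_b2082d_co.Lin
open Finset

theorem term : S_Term := by
  refine p_Term (p_Cover p_G1 p_G2) p_Mix ?_ ?_ p_Edge
  · intro d hd
    interval_cases d
    exacts [p_Bud0, p_Bud1, p_Bud2, p_Bud3, p_Bud4]
  · intro d hd
    interval_cases d
    exacts [p_Q0, p_Q1, p_Q2, p_Q3, p_Q4]

theorem linear_bound {V ι : Type} [Fintype V] [DecidableEq V] [Fintype ι] [Nonempty ι]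
    (E : ι → Finset V) (hu : ∀ i, (E i).card = 4)
    (hr : ∀ v, (univ.filter fun i => v ∈ E i).card = 4)
    (hl : ∀ i j, i ≠ j → (E i ∩ E j).card ≤ 1) : (7 / 3 : ℝ) ≤ FDT E := by
  classical
  exact stage p_Row p_Col p_Dual E hu hr (term V ι E ⟨hu, fun v => (hr v).le, hl⟩)

end Pool.Agent.P.MP_b2082d_co.Lin
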