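import Pool.Agent.P.MP_b2082d_co.Basic

/-! Definitions and interface statements for the bound 7/3 on linear hypergraphs. -/

namespace Pool.Agent.P.MP_b2082d_co.Lin
open Finset

section
variable {V ι : Type}

/-- `T` meets every edge with index in `R`. -/
def Tr [DecidableEq V] (E : ι → Finset V) (R : Finset ι) (T : Finset V) : Prop :=
  ∀ i ∈ R, (T ∩ E i).Nonempty

/-- twice the weight of the pairs and loops meeting `S`. -/
def F2 [Fintype ι] [DecidableEq ι] (M : ι → ι → ℕ) (l : ι → ℕ) (S : Finset ι) : ℕ :=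
  2 * ∑ i ∈ S, l i + ∑ i ∈ S, ∑ j, M i j + ∑ i ∈ S, ∑ j ∈ Sᶜ, M i j

structure Good [Fintype ι] [DecidableEq ι] (D : ℕ) (M : ι → ι → ℕ) (l : ι → ℕ) : Prop where
  symm : ∀ i j, M i j = M j i
  diag : ∀ i, M i i = 0
  odd : ∀ S : Finset ι, Odd S.card → D * (S.card + 1) ≤ F2 M l S

def st [DecidableEq V] (E : ι → Finset V) (R : Finset ι) (v : V) : Finset ι :=
  R.filter fun i => v ∈ E i

def dg [DecidableEq V] (E : ι → Finset V) (R : Finset ι) (v : V) : ℕ := (st E R v).card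

def del [DecidableEq V] (E : ι → Finset V) (R : Finset ι) (x : V) : Finset ι :=
  R.filter fun i => x ∉ E i

/-- number of other vertices of degree two in the edge `i`. -/
def mc [DecidableEq V] (E : ι → Finset V) (R : Finset ι) (v : V) (i : ι) : ℕ :=
  (((E i).erase v).filter fun u => dg E R u = 2).card

/-- number of other vertices of degree at least three in the edge `i`. -/
def hc [DecidableEq V] (E : ι → Finset V) (R : Finset ι) (v : V) (i : ι) : ℕ :=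
  (((E i).erase v).filter fun u => 3 ≤ dg E R u).card

/-- the budget left for the pair cover. -/
def bud [Fintype V] [DecidableEq V] (E : ι → Finset V) (P μ : Finset ι → V → ℝ) (R : Finset ι)
    (v : V) : ℝ :=
  P R v - μ R v * (1 - P R v) + ∑ x ∈ univ.erase v, μ R x * (P R v - P (del E R x) v)

/-- prices in units `1/10^5`. -/
def phi : ℕ → ℤ
  | 0 => 0
  | 1 => 25000
  | 2 => 30182
  | 3 => 38362
  | _ => 45722

noncomputable def pr [DecidableEq V] (E : ι → Finset V) (R : Finset ι) (v : V) : ℝ :=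
  ((phi (dg E R v) : ℝ) -
    if dg E R v = 1 then 902 * ∑ i ∈ st E R v, ((mc E R v i : ℝ) + hc E R v i) else 0) / 100000

noncomputable def mu [DecidableEq V] (E : ι → Finset V) (R : Finset ι) (x : V) : ℝ :=
  if 3 ≤ dg E R x then 3 / 10 else 0

def b1 (m h : ℕ) : ℤ := (25000 - 902 * ((m : ℤ) + h)) * (10 + 3 * h) - 8118 * m

def b2 (h m' h' : ℕ) : ℤ :=
  150910 + 15546 * h + 2706 * ((h : ℤ) * ((m' : ℤ) + h') - if h = 0 then 0 else (m' : ℤ))

/-- lower bound of the budget in units `1/10^6`. -/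
def lbf [DecidableEq ι] (s : Finset ι) (m h : ι → ℕ) : ℤ :=
  if s.card = 1 then ∑ i ∈ s, b1 (m i) (h i)
  else if s.card = 2 then ∑ i ∈ s, ∑ j ∈ s.erase i, b2 (h i) (m j) (h j)
  else if s.card = 3 then 198706 + 24540 * ∑ i ∈ s, (h i : ℤ)
  else if s.card = 4 then 294386 + 22080 * ∑ i ∈ s, (h i : ℤ)
  else 0

/-- weights of the ordered pairs of edges at a vertex with star `s`. -/
def qf [DecidableEq ι] (s : Finset ι) (m h : ι → ℕ) (i j : ι) : ℤ :=
  if i ∈ s ∧ j ∈ s then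
    if s.card = 1 then 2 * b1 (m i) (h i)
    else if i = j then 0
    else if s.card = 2 then b2 (h i) (m j) (h j) + b2 (h j) (m i) (h i)
    else if s.card = 3 then
      66200 + 23100 * ((h i : ℤ) + h j) - 21900 * (∑ k ∈ s, (h k : ℤ) - h i - h j)
    else 49050 + 12950 * ((h i : ℤ) + h j) - 5650 * (∑ k ∈ s, (h k : ℤ) - h i - h j)
  else 0

def pick (L : List ℤ) (m h : ℕ) : ℤ :=
  L.getD ((if m = 0 then 0 else if m = 1 then 4 else if m = 2 then 7 else 9) + h) 0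

def y2 (m h : ℕ) : ℤ :=
  pick [301500, 281000, 294500, 326000, 284300, 297100, 321600, 267200, 317100, 301500] m h

def z2 (u m h : ℕ) : ℤ :=
  if u ≤ 1 then
    pick [-63600, -38600, 32500, 139300, 235300, 260900, 309800, 201000, 217400, 63700] m h
  else if u = 2 then
    pick [-196900, -105800, 75300, 313900, 168700, 260400, 353200, 267700, 334000, 300100] m h
  else if u = 3 then
    pick [-254100, -162900, 84300, 389000, 140100, 231800, 390800, 248600, 337000, 285800] m h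
  else
    pick [-285800, -194700, 52600, 423400, 124200, 215900, 374900, 238100, 326400, 277800] m h

/-- share of one incidence: degree `d`, `j` edges of the star inside the odd set of class `u`. -/
def Z (d j m h u : ℕ) : ℤ :=
  if d = 1 then 2 * b1 m h
  else if d = 2 then (if j = 1 then 2 * y2 m h else z2 u m h)
  else if d = 3 then
    (if j = 1 then 264800 + 92400 * h else if j = 2 then 198600 + 48600 * h
      else 132400 + 48600 * h)
  else
    (if j = 1 then 294300 + 77700 * h else if j = 2 then 245250 + 55100 * h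
      else if j = 3 then 196200 + 43800 * h else 147150 + 43800 * h)

structure LinH [Fintype ι] [DecidableEq V] (E : ι → Finset V) : Prop where
  unif : ∀ i, (E i).card = 4
  deg : ∀ v, (univ.filter fun i => v ∈ E i).card ≤ 4
  lin : ∀ i j, i ≠ j → (E i ∩ E j).card ≤ 1

end

def S_G1 : Prop :=
  ∀ (ι : Type) [Fintype ι] [DecidableEq ι] (D : ℕ) (M : ι → ι → ℕ) (l : ι → ℕ), Good D M l →
    ∃ (M' : ι → ι → ℕ) (l' : ι → ℕ) (N : ι → ι → ℕ), Good D M' l' ∧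
      (∀ i, l' i + ∑ j, M' i j = D) ∧ (∀ i j, M i j = M' i j + N i j + N j i) ∧
      ∀ i, l' i ≤ l i + ∑ j, N i j

def S_G2 : Prop :=
  ∀ (ι : Type) [Fintype ι] [DecidableEq ι] (D : ℕ) (M : ι → ι → ℕ) (l : ι → ℕ), Good D M l →
    0 < D → (∀ i, l i + ∑ j, M i j = D) → ∀ (s : ι → ℝ) (c : ι → ι → ℝ),
      ∃ τ : ι → ι, (∀ i, τ (τ i) = i) ∧ (∀ i, τ i ≠ i → 0 < M i (τ i)) ∧
        (D : ℝ) * ∑ i, (if τ i = i then s i else c i (τ i)) ≤
          ∑ i, (l i : ℝ) * s i + ∑ i, ∑ j, (M i j : ℝ) * c i j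

def S_Cover : Prop :=
  ∀ (V ι : Type) [Fintype V] [DecidableEq V] [Fintype ι] [DecidableEq ι] (E : ι → Finset V)
    (R : Finset ι) (D : ℕ) (q : V → ι → ι → ℤ), 0 < D → (∀ v i j, 0 ≤ q v i j) →
    (∀ v i j, q v i j ≠ 0 → i ∈ R ∧ j ∈ R ∧ v ∈ E i ∧ v ∈ E j) →
    (∀ S ⊆ R, Odd S.card → (D : ℤ) * (S.card + 1) ≤
      2 * ∑ v, ∑ i, ∑ j, if i ∈ S ∨ j ∈ S then q v i j else 0) →
    ∀ w : V → ℝ, (∀ v, 0 ≤ w v) →
      ∃ T, Tr E R T ∧ (D : ℝ) * ∑ v ∈ T, w v ≤ ∑ v, w v * ((∑ i, ∑ j, q v i j : ℤ) : ℝ)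

def S_Dual : Prop :=
  ∀ (V ι : Type) [Fintype V] [DecidableEq V] [Fintype ι] [Nonempty ι] (E : ι → Finset V) (c : ℝ),
    0 < c → (∀ w : V → ℝ, (∀ v, 0 ≤ w v) →
      ∃ T, IsTransversal E T ∧ ∑ v ∈ T, w v ≤ c * ∑ v, w v) → 1 / c ≤ FDT E

def S_Col : Prop :=
  ∀ (V ι : Type) [Fintype V] [DecidableEq V] [Fintype ι] (E : ι → Finset V),
    (∀ i, (E i).card = 4) → (∀ v, (univ.filter fun i => v ∈ E i).card ≤ 4) →
      ∃ χ : V → Fin 13, ∀ i, ∀ u ∈ E i, ∀ v ∈ E i, χ u = χ v → u = v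

def S_Row : Prop :=
  ∀ (c : Fin 13) (C : Fin 4 → Finset (Fin 13)), (∀ i, (C i).card = 4 ∧ c ∈ C i) →
    7 * ∑ a : Fin 13, ∑ b : Fin 13, (if a = b then 0 else if a = c ∨ b = c then 100000
      else phi (univ.filter fun i => a ∉ C i ∧ b ∉ C i).card) ≤ 46800000

def S_Mix : Prop :=
  ∀ (V ι : Type) [Fintype V] [DecidableEq V] (E : ι → Finset V) (P μ : Finset ι → V → ℝ),
    (∀ R x, 0 ≤ μ R x) → (∀ R x, μ R x ≠ 0 → ∃ i ∈ R, x ∈ E i) →
    (∀ R x, P (del E R x) x ≤ 0) →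
    (∀ R (w : V → ℝ), (∀ v, 0 ≤ w v) →
      ∃ T, Tr E R T ∧ ∑ v ∈ T, w v ≤ ∑ v, w v * bud E P μ R v) →
    ∀ R (w : V → ℝ), (∀ v, 0 ≤ w v) → ∃ T, Tr E R T ∧ ∑ v ∈ T, w v ≤ ∑ v, w v * P R v

def S_Bud (d : ℕ) : Prop :=
  ∀ (V ι : Type) [Fintype V] [DecidableEq V] [Fintype ι] [DecidableEq ι] (E : ι → Finset V),
    LinH E → ∀ (R : Finset ι) (v : V), dg E R v = d →
      (lbf (st E R v) (mc E R v) (hc E R v) : ℝ) ≤ 1000000 * bud E (pr E) (mu E) R v

def S_Q (d : ℕ) : Prop :=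
  ∀ (ι : Type) [Fintype ι] [DecidableEq ι] (s : Finset ι) (m h : ι → ℕ), s.card = d →
    (∀ i ∈ s, m i + h i ≤ 3) →
      (∀ i j, 0 ≤ qf s m h i j) ∧ ∑ i, ∑ j, qf s m h i j ≤ 2 * lbf s m h ∧
      ∀ (S : Finset ι) (u : ℕ), ∑ i ∈ S ∩ s, Z d (S ∩ s).card (m i) (h i) u ≤
        ∑ i, ∑ j, if i ∈ S ∨ j ∈ S then qf s m h i j else 0

def S_Edge : Prop :=
  ∀ (V : Type) [DecidableEq V] (e : Finset V) (d j : V → ℕ) (u : ℕ), e.card = 4 →
    (∀ v ∈ e, 1 ≤ j v ∧ j v ≤ d v ∧ d v ≤ 4) → u ≤ 4 → (u < 4 → ∑ v ∈ e, j v ≤ 4 + 2 * u) →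
      (2 * (u : ℤ) + 2) * 1000000 ≤ (2 * (u : ℤ) + 1) * ∑ v ∈ e,
        Z (d v) (j v) ((e.erase v).filter fun x => d x = 2).card
          ((e.erase v).filter fun x => 3 ≤ d x).card u

/-- the terminal lemma. -/
def S_Term : Prop :=
  ∀ (V ι : Type) [Fintype V] [DecidableEq V] [Fintype ι] [DecidableEq ι] (E : ι → Finset V),
    LinH E → ∀ (R : Finset ι) (w : V → ℝ), (∀ v, 0 ≤ w v) →
      ∃ T, Tr E R T ∧ ∑ v ∈ T, w v ≤ ∑ v, w v * ((phi (dg E R v) : ℝ) / 100000)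

end Pool.Agent.P.MP_b2082d_co.Lin
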