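import Pool.Agent.P.MP_b2082d_co.L.LDefs

/-! The weights of the pairs at vertices of degree at most two. -/

namespace Pool.Agent.P.MP_b2082d_co.Lin
open Finset

namespace Q012x

theorem red {ι : Type} [Fintype ι] [DecidableEq ι] (s : Finset ι) (f : ι → ι → ℤ)
    (hf : ∀ i j, ¬ (i ∈ s ∧ j ∈ s) → f i j = 0) : ∑ i, ∑ j, f i j = ∑ i ∈ s, ∑ j ∈ s, f i j := by
  rw [← sum_subset (subset_univ s) fun i _ hi => sum_eq_zero fun j _ => hf i j fun h => hi h.1]
  exact sum_congr rfl fun i _ =>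
    (sum_subset (subset_univ s) fun j _ hj => hf i j fun h => hj h.2).symm

theorem red1 {ι : Type} [Fintype ι] [DecidableEq ι] (s : Finset ι) (m h : ι → ℕ) :
    ∑ i, ∑ j, qf s m h i j = ∑ i ∈ s, ∑ j ∈ s, qf s m h i j :=
  red s _ fun _ _ hn => if_neg hn

theorem red2 {ι : Type} [Fintype ι] [DecidableEq ι] (s S : Finset ι) (m h : ι → ℕ) :
    (∑ i, ∑ j, if i ∈ S ∨ j ∈ S then qf s m h i j else 0) =
      ∑ i ∈ s, ∑ j ∈ s, if i ∈ S ∨ j ∈ S then qf s m h i j else 0 :=
  red s _ fun _ _ hn => by rw [qf, if_neg hn, ite_self]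

theorem b1_nonneg : ∀ m < 4, ∀ h < 4, m + h ≤ 3 → 0 ≤ b1 m h := by decide

theorem two : ∀ m < 4, ∀ h < 4, ∀ m' < 4, ∀ h' < 4, m + h ≤ 3 → m' + h' ≤ 3 →
    0 ≤ b2 h m' h' + b2 h' m h ∧ y2 m h ≤ b2 h m' h' + b2 h' m h ∧
      ∀ u < 5, z2 u m h + z2 u m' h' ≤ 2 * (b2 h m' h' + b2 h' m h) := by
  intro m hm h hh m' hm' h' hh'
  interval_cases m <;> interval_cases h <;> interval_cases m' <;> interval_cases h' <;> decide

theorem z2_min (u m h : ℕ) : z2 u m h = z2 (min u 4) m h := by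
  rcases le_total u 4 with hu | hu
  · rw [min_eq_left hu]
  · rw [min_eq_right hu, z2, z2, if_neg (by omega), if_neg (by omega), if_neg (by omega)]
    rfl

end Q012x

open Q012x

theorem p_Q0 : S_Q 0 := by
  intro ι _ _ s m h hs _
  obtain rfl := card_eq_zero.1 hs
  simp [qf, lbf]

theorem p_Q1 : S_Q 1 := by
  intro ι _ _ s m h hs hm
  obtain ⟨a, rfl⟩ := card_eq_one.1 hs
  have ha := hm a (mem_singleton_self a)
  have h0 := b1_nonneg (m a) (by omega) (h a) (by omega) ha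
  refine ⟨fun i j => ?_, ?_, fun S u => ?_⟩
  · rw [qf]
    split_ifs with h1
    · rw [mem_singleton.1 h1.1]; omega
    · rfl
  · rw [red1]
    simp [qf, lbf]
  · rw [red2]
    by_cases hS : a ∈ S <;> simp [hS, qf, Z]

theorem p_Q2 : S_Q 2 := by
  intro ι _ _ s m h hs hm
  have key := fun i (hi : i ∈ s) j (hj : j ∈ s) =>
    two (m i) (by have := hm i hi; omega) (h i) (by have := hm i hi; omega)
      (m j) (by have := hm j hj; omega) (h j) (by have := hm j hj; omega) (hm i hi) (hm j hj)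
  refine ⟨fun i j => ?_, ?_, fun S u => ?_⟩
  · rw [qf, hs]
    by_cases h1 : i ∈ s ∧ j ∈ s
    · rw [if_pos h1, if_neg (by omega), if_pos rfl]
      split_ifs
      exacts [le_rfl, (key i h1.1 j h1.2).1]
    · rw [if_neg h1]
  · obtain ⟨a, b, hab, rfl⟩ := card_eq_two.1 hs
    rw [red1]
    simp [qf, lbf, hs, hab, hab.symm, erase_insert_of_ne, add_comm, two_mul]
  · obtain ⟨a, b, hab, rfl⟩ := card_eq_two.1 hs
    have k1 := key a (by simp) b (by simp)
    have k2 := (key b (by simp) a (by simp)).2.1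
    have k3 := k1.2.2 (min u 4) (by omega)
    rw [← z2_min, ← z2_min] at k3
    rw [red2]
    by_cases ha : a ∈ S <;> by_cases hb : b ∈ S <;>
      simp [ha, hb, qf, Z, hs, hab, hab.symm, inter_insert_of_mem, inter_insert_of_notMem] <;>
      omega

end Pool.Agent.P.MP_b2082d_co.Lin
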