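import Pool.Agent.P.MP_b2082d_co.L.LDefs

namespace Pool.Agent.P.MP_b2082d_co.Lin
open Finset

namespace Stagex
variable {V ι : Type} [Fintype V] [DecidableEq V] [Fintype ι] [DecidableEq ι]

def res (E : ι → Finset V) (χ : V → Fin 13) (a b : Fin 13) : Finset ι :=
  univ.filter fun i => a ∉ (E i).image χ ∧ b ∉ (E i).image χ

def g (E : ι → Finset V) (χ : V → Fin 13) (v : V) (a b : Fin 13) : ℤ :=
  if a = b then 0 else if a = χ v ∨ b = χ v then 100000 else phi (dg E (res E χ a b) v)

lemma row (hR : S_Row) (E : ι → Finset V) (hu : ∀ i, (E i).card = 4) (χ : V → Fin 13)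
    (hχ : ∀ i, ∀ u ∈ E i, ∀ v ∈ E i, χ u = χ v → u = v) (v : V)
    (hv : (univ.filter fun i => v ∈ E i).card = 4) :
    7 * ∑ a, ∑ b, g E χ v a b ≤ 46800000 := by
  let e := (univ.filter fun i => v ∈ E i).equivFinOfCardEq hv
  have hmem : ∀ k, v ∈ E (e.symm k) := fun k => (mem_filter.mp (e.symm k).2).2
  have := hR (χ v) (fun k => (E (e.symm k)).image χ) (fun k => by
    refine ⟨?_, mem_image_of_mem _ (hmem k)⟩
    rw [card_image_of_injOn (fun x hx y hy h => hχ _ x hx y hy h), hu])
  refine le_trans (le_of_eq ?_) this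
  congr 1
  refine sum_congr rfl fun a _ => sum_congr rfl fun b _ => ?_
  unfold g
  congr 3
  unfold dg st res
  symm
  refine card_bij (fun k _ => (e.symm k : ι)) ?_ ?_ ?_
  · intro k hk
    simp only [mem_filter, mem_univ, true_and] at hk ⊢
    exact ⟨hk, hmem k⟩
  · intro k _ k' _ h
    exact e.symm.injective (Subtype.ext h)
  · intro i hi
    simp only [mem_filter, mem_univ, true_and] at hi
    refine ⟨e ⟨i, by simp [hi.2]⟩, ?_, by simp⟩
    simp only [mem_filter, mem_univ, true_and, Equiv.symm_apply_apply]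
    exact hi.1

lemma phi_nonneg (d : ℕ) : 0 ≤ phi d := by
  unfold phi; split <;> norm_num

end Stagex
open Stagex

/-- the first stage: two random colour classes, for any class with a terminal lemma. -/
theorem stage (hR : S_Row) (hC : S_Col) (hD : S_Dual) {V ι : Type} [Fintype V] [DecidableEq V]
    [Fintype ι] [DecidableEq ι] [Nonempty ι] (E : ι → Finset V) (hu : ∀ i, (E i).card = 4)
    (hr : ∀ v, (univ.filter fun i => v ∈ E i).card = 4)
    (hT : ∀ (R : Finset ι) (w : V → ℝ), (∀ v, 0 ≤ w v) →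
      ∃ T, Tr E R T ∧ ∑ v ∈ T, w v ≤ ∑ v, w v * ((phi (dg E R v) : ℝ) / 100000)) :
    (7 / 3 : ℝ) ≤ FDT E := by
  have key := hD V ι E (3 / 7) (by norm_num) ?_
  · norm_num at key; exact key
  intro w hw
  obtain ⟨χ, hχ⟩ := hC V ι E hu (fun v => (hr v).le)
  have hex : ∃ p : Fin 13 × Fin 13, p.1 ≠ p.2 ∧
      ∑ v, w v * (g E χ v p.1 p.2 : ℝ) ≤ 300000 / 7 * ∑ v, w v := by
    by_contra hcon
    push Not at hcon
    have h1 : ∑ p ∈ (univ : Finset (Fin 13 × Fin 13)).filter (fun p => p.1 ≠ p.2),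
        (300000 / 7 * ∑ v, w v) <
        ∑ p ∈ (univ : Finset (Fin 13 × Fin 13)).filter (fun p => p.1 ≠ p.2),
          ∑ v, w v * (g E χ v p.1 p.2 : ℝ) :=
      sum_lt_sum_of_nonempty ⟨(0, 1), by simp⟩ fun p hp => hcon p (mem_filter.mp hp).2
    have hc : ((univ : Finset (Fin 13 × Fin 13)).filter (fun p => p.1 ≠ p.2)).card = 156 := by
      decide +kernel
    rw [sum_const, hc, sum_comm] at h1
    have h2 : ∀ v, ∑ p ∈ (univ : Finset (Fin 13 × Fin 13)).filter (fun p => p.1 ≠ p.2),
        w v * (g E χ v p.1 p.2 : ℝ) ≤ w v * (46800000 / 7) := by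
      intro v
      rw [← mul_sum]
      refine mul_le_mul_of_nonneg_left ?_ (hw v)
      have h3 := row hR E hu χ hχ v (hr v)
      have h4 : ∑ p ∈ (univ : Finset (Fin 13 × Fin 13)).filter (fun p => p.1 ≠ p.2),
          g E χ v p.1 p.2 = ∑ a, ∑ b, g E χ v a b := by
        rw [← sum_product', univ_product_univ]
        refine sum_filter_of_ne fun p _ hp h => hp ?_
        simp [g, h]
      have h5 : (7 : ℝ) * ((∑ a, ∑ b, g E χ v a b : ℤ) : ℝ) ≤ 46800000 := by exact_mod_cast h3
      rw [← h4] at h5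
      push_cast at h5
      linarith
    have h6 := sum_le_sum fun v (_ : v ∈ (univ : Finset V)) => h2 v
    rw [← sum_mul] at h6
    simp only [nsmul_eq_mul] at h1
    push_cast at h1
    linarith
  obtain ⟨⟨a, b⟩, hab, hle⟩ := hex
  simp only at hab hle
  obtain ⟨T, hT1, hT2⟩ := hT (res E χ a b) w hw
  let K : Finset V := univ.filter fun v => a = χ v ∨ b = χ v
  refine ⟨K ∪ T, ?_, ?_⟩
  · intro i
    by_cases hi : i ∈ res E χ a b
    · obtain ⟨x, hx⟩ := hT1 i hi
      rw [mem_inter] at hx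
      exact ⟨x, mem_inter.mpr ⟨mem_union_right _ hx.1, hx.2⟩⟩
    · simp only [res, mem_filter, mem_univ, true_and, not_and_or, not_not, mem_image] at hi
      rcases hi with ⟨x, hx, h⟩ | ⟨x, hx, h⟩
      · exact ⟨x, mem_inter.mpr ⟨mem_union_left _ (by simp [K, h]), hx⟩⟩
      · exact ⟨x, mem_inter.mpr ⟨mem_union_left _ (by simp [K, h]), hx⟩⟩
  · have h1 : ∑ v ∈ K ∪ T, w v ≤ ∑ v ∈ K, w v + ∑ v ∈ T, w v := by
      rw [← sum_union_inter]
      have : 0 ≤ ∑ v ∈ K ∩ T, w v := sum_nonneg fun v _ => hw v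
      linarith
    have h2 : ∑ v ∈ K, w v + ∑ v, w v * ((phi (dg E (res E χ a b) v) : ℝ) / 100000) =
        (∑ v, w v * (g E χ v a b : ℝ)) / 100000 := by
      rw [sum_filter, ← sum_add_distrib, sum_div]
      refine sum_congr rfl fun v _ => ?_
      unfold g
      rw [if_neg hab]
      split_ifs with h
      · have h0 : dg E (res E χ a b) v = 0 := by
          unfold dg st res
          rw [card_eq_zero, filter_eq_empty_iff]
          intro i hi hv
          simp only [mem_filter, mem_univ, true_and] at hi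
          rcases h with h | h
          · exact hi.1 (h ▸ mem_image_of_mem _ hv)
          · exact hi.2 (h ▸ mem_image_of_mem _ hv)
        rw [h0]; simp [phi]
      · ring
    linarith

end Pool.Agent.P.MP_b2082d_co.Lin
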